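import Mathlib

namespace Pool.Agent.H959.B43024

open Filter Topology

/-- A positive solution, re-indexed: `x 0, x 1, x 2, ...` is `x_{-2}, x_{-1}, x_0, ...`. -/
def IsSol (x : ℕ → ℝ) : Prop :=
  (∀ n, 0 < x n) ∧ ∀ n, x (n + 3) = 2 * x n / (1 + x (n + 2) + x (n + 1))

/-- `V = e₁ - e₂` of three consecutive terms. -/
def V (x : ℕ → ℝ) (n : ℕ) : ℝ :=
  x n + x (n + 1) + x (n + 2) - x n * x (n + 1) - x (n + 1) * x (n + 2) - x n * x (n + 2)

variable {x : ℕ → ℝ}

lemma rec_mul (h : IsSol x) (n : ℕ) :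
    x (n + 3) * (1 + x (n + 2) + x (n + 1)) = 2 * x n := by
  have h1 := h.1 (n + 1)
  have h2 := h.1 (n + 2)
  rw [h.2 n]
  field_simp

lemma D_eq (h : IsSol x) (n : ℕ) :
    x (n + 3) - x n = x n * (1 - x (n + 1) - x (n + 2)) / (1 + x (n + 1) + x (n + 2)) := by
  have h1 := h.1 (n + 1)
  have h2 := h.1 (n + 2)
  rw [h.2 n]
  field_simp
  ring

lemma V_succ (h : IsSol x) (n : ℕ) :
    V x (n + 1) = V x n + x n * (1 - x (n + 1) - x (n + 2)) ^ 2 / (1 + x (n + 1) + x (n + 2)) := by
  have h1 := h.1 (n + 1)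
  have h2 := h.1 (n + 2)
  have hD := D_eq h n
  have : V x (n + 1) = V x n + (x (n + 3) - x n) * (1 - x (n + 1) - x (n + 2)) := by
    simp only [V]
    ring_nf
  rw [this, hD]
  ring

lemma V_le_succ (h : IsSol x) (n : ℕ) : V x n ≤ V x (n + 1) := by
  have h0 := h.1 n
  have h1 := h.1 (n + 1)
  have h2 := h.1 (n + 2)
  rw [V_succ h n]
  have : 0 ≤ x n * (1 - x (n + 1) - x (n + 2)) ^ 2 / (1 + x (n + 1) + x (n + 2)) := by positivity
  linarith

lemma V_mono (h : IsSol x) : Monotone (V x) := monotone_nat_of_le_succ (V_le_succ h)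

/-- the scalar lemma: vanishing increments and `u (1-u) (1-2u) → 0` force convergence. -/
lemma conv_of_roots (u : ℕ → ℝ) (h1 : Tendsto (fun k => u (k + 1) - u k) atTop (𝓝 0))
    (h2 : Tendsto (fun k => u k * (1 - u k) * (1 - 2 * u k)) atTop (𝓝 0)) :
    ∃ r : ℝ, (r = 0 ∨ r = 1 / 2 ∨ r = 1) ∧ Tendsto u atTop (𝓝 r) := by
  have key : ∀ v : ℝ, |v * (1 - v) * (1 - 2 * v)| < 1 / 256 →
      ∃ r : ℝ, (r = 0 ∨ r = 1 / 2 ∨ r = 1) ∧ |v - r| < 1 / 8 := by
    intro v hv
    by_contra hcon
    push Not at hcon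
    have a0 := hcon 0 (Or.inl rfl)
    have a1 := hcon (1 / 2) (Or.inr (Or.inl rfl))
    have a2 := hcon 1 (Or.inr (Or.inr rfl))
    rw [sub_zero] at a0
    have b1 : 1 / 4 ≤ |1 - 2 * v| := by
      have : |1 - 2 * v| = 2 * |v - 1 / 2| := by
        rw [show (1 - 2 * v) = -(2 * (v - 1 / 2)) by ring, abs_neg, abs_mul]
        norm_num
      rw [this]; linarith
    have b2 : 1 / 8 ≤ |1 - v| := by rwa [abs_sub_comm] at a2
    have : 1 / 256 ≤ |v * (1 - v) * (1 - 2 * v)| := by
      rw [abs_mul, abs_mul]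
      have c1 : 1 / 8 * (1 / 8) ≤ |v| * |1 - v| := mul_le_mul a0 b2 (by norm_num) (abs_nonneg _)
      have c2 := mul_le_mul c1 b1 (by norm_num) (by positivity)
      linarith
    linarith
  have e1 : ∀ᶠ k in atTop, |u (k + 1) - u k| < 1 / 8 := by
    have := h1.abs
    rw [abs_zero] at this
    exact this.eventually (gt_mem_nhds (by norm_num))
  have e2 : ∀ᶠ k in atTop, |u k * (1 - u k) * (1 - 2 * u k)| < 1 / 256 := by
    have := h2.abs
    rw [abs_zero] at this
    exact this.eventually (gt_mem_nhds (by norm_num))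
  obtain ⟨K, hK⟩ := eventually_atTop.1 (e1.and e2)
  obtain ⟨r, hr, hrK⟩ := key (u K) (hK K le_rfl).2
  have hind : ∀ k, K ≤ k → |u k - r| < 1 / 8 := by
    intro k hk
    induction k, hk using Nat.le_induction with
    | base => exact hrK
    | succ k hk ih =>
      obtain ⟨r', hr', hr'K⟩ := key (u (k + 1)) (hK (k + 1) (by omega)).2
      have h3 := (hK k hk).1
      have hrr : r = r' := by
        have h4 : |r - r'| < 3 / 8 := by
          have e : r - r' = -(u k - r) + -(u (k + 1) - u k) + (u (k + 1) - r') := by ring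
          rw [e]
          calc _ ≤ |-(u k - r) + -(u (k + 1) - u k)| + |u (k + 1) - r'| := abs_add_le _ _
            _ ≤ |-(u k - r)| + |-(u (k + 1) - u k)| + |u (k + 1) - r'| := by
                gcongr; exact abs_add_le _ _
            _ < 3 / 8 := by rw [abs_neg, abs_neg]; linarith
        rcases abs_lt.1 h4 with ⟨h5, h6⟩
        rcases hr with rfl | rfl | rfl <;> rcases hr' with rfl | rfl | rfl <;>
          first | rfl | (exfalso; revert h5 h6; norm_num)
      rw [hrr]; exact hr'K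
  refine ⟨r, hr, ?_⟩
  have hb : ∀ k, K ≤ k → |u k - r| ≤ 4 * |u k * (1 - u k) * (1 - 2 * u k)| := by
    intro k hk
    have hk' := hind k hk
    rcases abs_lt.1 hk' with ⟨h5, h6⟩
    rw [abs_mul, abs_mul]
    rcases hr with rfl | rfl | rfl
    · have c1 : 7 / 8 ≤ |1 - u k| := by rw [le_abs]; left; linarith
      have c2 : 3 / 4 ≤ |1 - 2 * u k| := by rw [le_abs]; left; linarith
      rw [sub_zero]
      have := mul_le_mul c1 c2 (by norm_num) (abs_nonneg _)
      nlinarith [abs_nonneg (u k)]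
    · have c1 : 3 / 8 ≤ |1 - u k| := by rw [le_abs]; left; linarith
      have c2 : 3 / 8 ≤ |u k| := by rw [le_abs]; left; linarith
      have c3 : |1 - 2 * u k| = 2 * |u k - 1 / 2| := by
        rw [show (1 - 2 * u k) = -(2 * (u k - 1 / 2)) by ring, abs_neg, abs_mul]
        norm_num
      rw [c3]
      have := mul_le_mul c2 c1 (by norm_num) (abs_nonneg _)
      nlinarith [abs_nonneg (u k - 1 / 2)]
    · have c1 : 7 / 8 ≤ |u k| := by rw [le_abs]; left; linarith
      have c2 : 3 / 4 ≤ |1 - 2 * u k| := by rw [le_abs]; right; linarith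
      have c3 : |1 - u k| = |u k - 1| := abs_sub_comm _ _
      rw [c3]
      have := mul_le_mul c1 c2 (by norm_num) (abs_nonneg _)
      nlinarith [abs_nonneg (u k - 1)]
  rw [tendsto_iff_norm_sub_tendsto_zero]
  have h4 : Tendsto (fun k => 4 * |u k * (1 - u k) * (1 - 2 * u k)|) atTop (𝓝 0) := by
    have := (h2.abs).const_mul 4
    simpa using this
  refine squeeze_zero' (Eventually.of_forall fun _ => norm_nonneg _) ?_ h4
  filter_upwards [eventually_ge_atTop K] with k hk
  rw [Real.norm_eq_abs]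
  exact hb k hk

/-! ### bounded solutions -/

/-- if `V` is bounded above, the solution is bounded -/
lemma bounded_of_V (h : IsSol x) {c : ℝ} (hc : ∀ n, V x n ≤ c) : ∃ M, ∀ n, x n ≤ M := by
  -- the increments of `V` tend to zero
  have hconv : ∃ l, Tendsto (V x) atTop (𝓝 l) :=
    ⟨_, tendsto_atTop_ciSup (V_mono h) ⟨c, by rintro _ ⟨n, rfl⟩; exact hc n⟩⟩
  obtain ⟨l, hl⟩ := hconv
  have hinc : Tendsto (fun n => V x (n + 1) - V x n) atTop (𝓝 0) := by
    have := ((tendsto_add_atTop_iff_nat 1).2 hl).sub hl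
    simpa using this
  obtain ⟨N, hN⟩ := eventually_atTop.1 (hinc.eventually (gt_mem_nhds (show (0 : ℝ) < 1 / 100 by norm_num)))
  have hN' : ∀ n, N ≤ n →
      x n * (1 - x (n + 1) - x (n + 2)) ^ 2 < 1 / 100 * (1 + x (n + 1) + x (n + 2)) := by
    intro n hn
    have h1 := h.1 (n + 1)
    have h2 := h.1 (n + 2)
    have := hN n hn
    rw [V_succ h n] at this
    have h3 : x n * (1 - x (n + 1) - x (n + 2)) ^ 2 / (1 + x (n + 1) + x (n + 2)) < 1 / 100 := by
      linarith
    rwa [div_lt_iff₀ (by positivity)] at h3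
  have key : ∀ n, N ≤ n → x n ≤ 10 := by
    intro n hn
    by_contra hcon
    push Not at hcon
    have p1 := h.1 (n + 1)
    have p2 := h.1 (n + 2)
    have p3 := h.1 (n + 3)
    have p4 := h.1 (n + 4)
    have q0 := hN' n hn
    have q1 := hN' (n + 1) (by omega)
    have q2 := hN' (n + 2) (by omega)
    have r0 := rec_mul h n
    simp only [show n + 1 + 1 = n + 2 by ring, show n + 1 + 2 = n + 3 by ring,
      show n + 2 + 2 = n + 4 by ring] at q1 q2
    set s := x (n + 1) + x (n + 2) with hs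
    have s0 : 0 < s := by positivity
    have hs1 : 9 / 10 < s ∧ s < 11 / 10 := by
      have hq : 10 * (1 - s) ^ 2 < 1 / 100 * (1 + s) := by
        have : 10 * (1 - s) ^ 2 ≤ x n * (1 - x (n + 1) - x (n + 2)) ^ 2 := by
          have e : (1 - s) ^ 2 = (1 - x (n + 1) - x (n + 2)) ^ 2 := by rw [hs]; ring
          rw [e]
          exact mul_le_mul_of_nonneg_right hcon.le (sq_nonneg _)
        have e2 : 1 + x (n + 1) + x (n + 2) = 1 + s := by rw [hs]; ring
        rw [e2] at q0
        linarith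
      constructor
      · by_contra hh
        push Not at hh
        nlinarith
      · by_contra hh
        push Not at hh
        nlinarith
    have x3 : 9 < x (n + 3) := by
      have e2 : 1 + x (n + 2) + x (n + 1) = 1 + s := by rw [hs]; ring
      rw [e2] at r0
      nlinarith
    have y1 : x (n + 1) < 1 / 100 := by
      have hu : 9 < x (n + 2) + x (n + 3) := by linarith
      set w := x (n + 2) + x (n + 3) with hw
      have e : (1 - x (n + 2) - x (n + 3)) ^ 2 = (1 - w) ^ 2 := by rw [hw]; ring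
      have e' : 1 + x (n + 2) + x (n + 3) = 1 + w := by rw [hw]; ring
      rw [e, e'] at q1
      have : 1 + w ≤ (1 - w) ^ 2 := by nlinarith
      by_contra hh
      push Not at hh
      nlinarith [mul_le_mul_of_nonneg_left this (show (0 : ℝ) ≤ 1 / 100 by norm_num),
        mul_le_mul_of_nonneg_right hh (sq_nonneg (1 - w))]
    have y2 : x (n + 2) < 1 / 100 := by
      have hu : 9 < x (n + 3) + x (n + 4) := by linarith
      set w := x (n + 3) + x (n + 4) with hw
      have e : (1 - x (n + 3) - x (n + 4)) ^ 2 = (1 - w) ^ 2 := by rw [hw]; ring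
      have e' : 1 + x (n + 3) + x (n + 4) = 1 + w := by rw [hw]; ring
      rw [e, e'] at q2
      have : 1 + w ≤ (1 - w) ^ 2 := by nlinarith
      by_contra hh
      push Not at hh
      nlinarith [mul_le_mul_of_nonneg_left this (show (0 : ℝ) ≤ 1 / 100 by norm_num),
        mul_le_mul_of_nonneg_right hh (sq_nonneg (1 - w))]
    linarith [hs1.1]
  refine ⟨10 + ∑ i ∈ Finset.range N, x i, fun n => ?_⟩
  have hsum : 0 ≤ ∑ i ∈ Finset.range N, x i := Finset.sum_nonneg fun i _ => (h.1 i).le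
  rcases lt_or_ge n N with hn | hn
  · have := Finset.single_le_sum (f := x) (fun i _ => (h.1 i).le) (Finset.mem_range.2 hn)
    linarith
  · have := key n hn
    linarith

/-- the possible limits of the three subsequences -/
def IsLim (a b c : ℝ) : Prop :=
  (a = 1 / 2 ∧ b = 1 / 2 ∧ c = 1 / 2) ∨ (a = 0 ∧ b = 1 ∧ c = 1) ∨ (a = 1 ∧ b = 0 ∧ c = 1) ∨
    (a = 1 ∧ b = 1 ∧ c = 0)

lemma limits_of_bounded (h : IsSol x) {M : ℝ} (hM : ∀ n, x n ≤ M) :
    ∃ a b c : ℝ, IsLim a b c ∧ Tendsto (fun k => x (3 * k)) atTop (𝓝 a) ∧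
      Tendsto (fun k => x (3 * k + 1)) atTop (𝓝 b) ∧
      Tendsto (fun k => x (3 * k + 2)) atTop (𝓝 c) := by
  have hM0 : 0 < M := lt_of_lt_of_le (h.1 0) (hM 0)
  -- V converges
  have hVb : ∀ n, V x n ≤ 3 * M := by
    intro n
    have h0 := h.1 n
    have h1 := h.1 (n + 1)
    have h2 := h.1 (n + 2)
    have a0 := hM n
    have a1 := hM (n + 1)
    have a2 := hM (n + 2)
    simp only [V]
    have := mul_pos h0 h1
    have := mul_pos h1 h2
    have := mul_pos h0 h2
    linarith
  obtain ⟨l, hl⟩ : ∃ l, Tendsto (V x) atTop (𝓝 l) :=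
    ⟨_, tendsto_atTop_ciSup (V_mono h) ⟨3 * M, by rintro _ ⟨n, rfl⟩; exact hVb n⟩⟩
  have hinc : Tendsto (fun n => V x (n + 1) - V x n) atTop (𝓝 0) := by
    have := ((tendsto_add_atTop_iff_nat 1).2 hl).sub hl
    simpa using this
  -- E n = x n (1 - x (n+1) - x (n+2)) → 0
  have hEsq : Tendsto (fun n => (x n * (1 - x (n + 1) - x (n + 2))) ^ 2) atTop (𝓝 0) := by
    have hb : Tendsto (fun n => M * (1 + 2 * M) * (V x (n + 1) - V x n)) atTop (𝓝 0) := by
      have := hinc.const_mul (M * (1 + 2 * M))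
      simpa using this
    refine squeeze_zero (fun n => sq_nonneg _) (fun n => ?_) hb
    have h0 := h.1 n
    have h1 := h.1 (n + 1)
    have h2 := h.1 (n + 2)
    have a0 := hM n
    have a1 := hM (n + 1)
    have a2 := hM (n + 2)
    rw [V_succ h n]
    set t := (1 - x (n + 1) - x (n + 2)) ^ 2 with ht
    have ht0 : 0 ≤ t := sq_nonneg _
    have hq : x n * t ≤ (1 + 2 * M) * (x n * t / (1 + x (n + 1) + x (n + 2))) := by
      rw [← mul_div_assoc, le_div_iff₀ (by positivity)]
      have : 1 + x (n + 1) + x (n + 2) ≤ 1 + 2 * M := by linarith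
      nlinarith [mul_nonneg h0.le ht0]
    calc (x n * (1 - x (n + 1) - x (n + 2))) ^ 2 = x n * (x n * t) := by rw [ht]; ring
      _ ≤ M * (x n * t) := by
          apply mul_le_mul_of_nonneg_right a0 (by positivity)
      _ ≤ M * ((1 + 2 * M) * (x n * t / (1 + x (n + 1) + x (n + 2)))) := by
          apply mul_le_mul_of_nonneg_left hq hM0.le
      _ = _ := by ring
  have hE : Tendsto (fun n => x n * (1 - x (n + 1) - x (n + 2))) atTop (𝓝 0) := by
    have h2 : Tendsto (fun n => Real.sqrt ((x n * (1 - x (n + 1) - x (n + 2))) ^ 2)) atTop (𝓝 0) := by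
      have := hEsq.sqrt
      simpa using this
    rw [tendsto_zero_iff_abs_tendsto_zero]
    refine h2.congr fun n => ?_
    rw [Real.sqrt_sq_eq_abs]
    rfl
  have hD : Tendsto (fun n => x (n + 3) - x n) atTop (𝓝 0) := by
    refine squeeze_zero_norm (fun n => ?_) (by simpa using hE.abs)
    have h1 := h.1 (n + 1)
    have h2 := h.1 (n + 2)
    rw [D_eq h n, Real.norm_eq_abs, abs_div]
    have : |1 + x (n + 1) + x (n + 2)| = 1 + x (n + 1) + x (n + 2) := abs_of_pos (by positivity)
    rw [this, ← abs_mul]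
    exact div_le_self (abs_nonneg _) (by linarith)
  -- bounded times null
  have hbn : ∀ (u v : ℕ → ℝ) (C : ℝ), (∀ n, |u n| ≤ C) → Tendsto v atTop (𝓝 0) →
      Tendsto (fun n => u n * v n) atTop (𝓝 0) := by
    intro u v C hu hv
    refine squeeze_zero_norm (a := fun n => C * |v n|) (fun n => ?_) ?_
    · rw [Real.norm_eq_abs, abs_mul]
      exact mul_le_mul_of_nonneg_right (hu n) (abs_nonneg _)
    · have := hv.abs.const_mul C
      simpa using this
  have habs : ∀ n, |x n| ≤ M := fun n => by rw [abs_of_pos (h.1 n)]; exact hM n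
  have hE1 : Tendsto (fun n => x (n + 1) * (1 - x (n + 2) - x (n + 3))) atTop (𝓝 0) := by
    have := (tendsto_add_atTop_iff_nat 1).2 hE
    refine this.congr fun n => ?_
    simp only [show n + 1 + 1 = n + 2 by ring, show n + 1 + 2 = n + 3 by ring]
  have hE2 : Tendsto (fun n => x (n + 2) * (1 - x (n + 3) - x (n + 4))) atTop (𝓝 0) := by
    have := (tendsto_add_atTop_iff_nat 2).2 hE
    refine this.congr fun n => ?_
    simp only [show n + 2 + 1 = n + 3 by ring, show n + 2 + 2 = n + 4 by ring]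
  have hD1 : Tendsto (fun n => x (n + 4) - x (n + 1)) atTop (𝓝 0) := by
    have := (tendsto_add_atTop_iff_nat 1).2 hD
    refine this.congr fun n => ?_
    simp only [show n + 1 + 3 = n + 4 by ring]
  have hf2 : Tendsto (fun n => x (n + 1) * (1 - x (n + 2) - x n)) atTop (𝓝 0) := by
    have h3 := hbn (fun n => x (n + 1)) _ M (fun n => habs _) hD
    have := hE1.add h3
    rw [add_zero] at this
    refine this.congr fun n => ?_
    ring
  have hf3 : Tendsto (fun n => x (n + 2) * (1 - x n - x (n + 1))) atTop (𝓝 0) := by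
    have hDD := hD.add hD1
    rw [add_zero] at hDD
    have h3 := hbn (fun n => x (n + 2)) _ M (fun n => habs _) hDD
    have := hE2.add h3
    simp only [add_zero] at this
    refine this.congr fun n => ?_
    ring
  -- g(x n) → 0
  have hg : Tendsto (fun n => x n * (1 - x n) * (1 - 2 * x n)) atTop (𝓝 0) := by
    have b1 : ∀ n, |(-2 * (x (n + 1) * x (n + 2)) + (1 - 2 * x n) * (1 - x n))| ≤
        2 * (M * M) + (1 + 2 * M) * (1 + M) := by
      intro n
      have h0 := h.1 n
      have h1 := h.1 (n + 1)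
      have h2 := h.1 (n + 2)
      have a0 := hM n
      have a1 := hM (n + 1)
      have a2 := hM (n + 2)
      have m1 : x (n + 1) * x (n + 2) ≤ M * M := mul_le_mul a1 a2 h2.le hM0.le
      have m2 := mul_pos h1 h2
      have m3 : |(1 - 2 * x n) * (1 - x n)| ≤ (1 + 2 * M) * (1 + M) := by
        rw [abs_mul]
        apply mul_le_mul _ _ (abs_nonneg _) (by positivity)
        · rw [abs_le]; constructor <;> linarith
        · rw [abs_le]; constructor <;> linarith
      rw [abs_le] at m3 ⊢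
      constructor <;> nlinarith [m3.1, m3.2]
    have b2 : ∀ n, |2 * (x n * x (n + 2)) + (1 - 2 * x n) * x n| ≤
        2 * (M * M) + (1 + 2 * M) * M := by
      intro n
      have h0 := h.1 n
      have h2 := h.1 (n + 2)
      have a0 := hM n
      have a2 := hM (n + 2)
      have m1 : x n * x (n + 2) ≤ M * M := mul_le_mul a0 a2 h2.le hM0.le
      have m2 := mul_pos h0 h2
      have m3 : |(1 - 2 * x n) * x n| ≤ (1 + 2 * M) * M := by
        rw [abs_mul]
        apply mul_le_mul _ _ (abs_nonneg _) (by positivity)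
        · rw [abs_le]; constructor <;> linarith
        · rw [abs_le]; constructor <;> linarith
      rw [abs_le] at m3 ⊢
      constructor <;> nlinarith [m3.1, m3.2]
    have b3 : ∀ n, |2 * (x n * x (n + 1)) + (1 - 2 * x n) * x n| ≤
        2 * (M * M) + (1 + 2 * M) * M := by
      intro n
      have h0 := h.1 n
      have h2 := h.1 (n + 1)
      have a0 := hM n
      have a2 := hM (n + 1)
      have m1 : x n * x (n + 1) ≤ M * M := mul_le_mul a0 a2 h2.le hM0.le
      have m2 := mul_pos h0 h2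
      have m3 : |(1 - 2 * x n) * x n| ≤ (1 + 2 * M) * M := by
        rw [abs_mul]
        apply mul_le_mul _ _ (abs_nonneg _) (by positivity)
        · rw [abs_le]; constructor <;> linarith
        · rw [abs_le]; constructor <;> linarith
      rw [abs_le] at m3 ⊢
      constructor <;> nlinarith [m3.1, m3.2]
    have c1 := hbn _ _ _ b1 hE
    have c2 := hbn _ _ _ b2 hf2
    have c3 := hbn _ _ _ b3 hf3
    have := (c1.add c2).add c3
    simp only [add_zero] at this
    refine this.congr fun n => ?_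
    ring
  have hsub : ∀ i, ∃ r : ℝ, (r = 0 ∨ r = 1 / 2 ∨ r = 1) ∧
      Tendsto (fun k => x (3 * k + i)) atTop (𝓝 r) := by
    intro i
    have ht : Tendsto (fun k : ℕ => 3 * k + i) atTop atTop :=
      tendsto_atTop_mono (fun k => by simp only [id]; omega) tendsto_id
    refine conv_of_roots _ ?_ (hg.comp ht)
    refine (hD.comp ht).congr fun k => ?_
    simp only [Function.comp_apply]
    rw [show 3 * k + i + 3 = 3 * (k + 1) + i by ring]
  obtain ⟨a, ha, hta⟩ := hsub 0
  obtain ⟨b, hb, htb⟩ := hsub 1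
  obtain ⟨c, hc, htc⟩ := hsub 2
  have ht0 : Tendsto (fun k : ℕ => 3 * k) atTop atTop :=
    tendsto_atTop_mono (fun k => by simp only [id]; omega) tendsto_id
  have hta' : Tendsto (fun k => x (3 * k)) atTop (𝓝 a) := hta
  have l1 : a * (1 - b - c) = 0 := by
    refine tendsto_nhds_unique ?_ (hE.comp ht0)
    exact hta'.mul ((tendsto_const_nhds.sub htb).sub htc)
  have l2 : b * (1 - c - a) = 0 := by
    refine tendsto_nhds_unique ?_ (hf2.comp ht0)
    exact htb.mul ((tendsto_const_nhds.sub htc).sub hta')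
  have l3 : c * (1 - a - b) = 0 := by
    refine tendsto_nhds_unique ?_ (hf3.comp ht0)
    exact htc.mul ((tendsto_const_nhds.sub hta').sub htb)
  refine ⟨a, b, c, ?_, hta', htb, htc⟩
  have hne : ¬ (a = 0 ∧ b = 0 ∧ c = 0) := by
    rintro ⟨rfl, rfl, rfl⟩
    have ev : ∀ᶠ k in atTop, x (3 * k + 1) < 1 / 4 ∧ x (3 * k + 2) < 1 / 4 :=
      (htb.eventually (gt_mem_nhds (by norm_num))).and (htc.eventually (gt_mem_nhds (by norm_num)))
    obtain ⟨K, hK⟩ := eventually_atTop.1 ev
    have inc : ∀ k, K ≤ k → x (3 * K) ≤ x (3 * k) := by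
      intro k hk
      induction k, hk using Nat.le_induction with
      | base => exact le_rfl
      | succ k hk ih =>
        refine ih.trans ?_
        have hh := hK k hk
        have r := rec_mul h (3 * k)
        have p0 := h.1 (3 * k)
        have p1 := h.1 (3 * k + 1)
        have p2 := h.1 (3 * k + 2)
        have p3 := h.1 (3 * k + 3)
        rw [show 3 * (k + 1) = 3 * k + 3 by ring]
        nlinarith [hh.1, hh.2]
    have := ge_of_tendsto hta' (eventually_atTop.2 ⟨K, inc⟩)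
    linarith [h.1 (3 * K)]
  rcases ha with rfl | rfl | rfl <;> rcases hb with rfl | rfl | rfl <;>
    rcases hc with rfl | rfl | rfl <;>
    first
      | (exfalso; revert l1; norm_num; done)
      | (exfalso; revert l2; norm_num; done)
      | (exfalso; revert l3; norm_num; done)
      | (exfalso; exact hne ⟨rfl, rfl, rfl⟩)
      | (left; exact ⟨rfl, rfl, rfl⟩)
      | (right; left; exact ⟨rfl, rfl, rfl⟩)
      | (right; right; left; exact ⟨rfl, rfl, rfl⟩)
      | (right; right; right; exact ⟨rfl, rfl, rfl⟩)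

/-! ### classification -/

/-- the solution converges to the equilibrium -/
def ConvHalf (x : ℕ → ℝ) : Prop := Tendsto x atTop (𝓝 (1 / 2))

/-- the solution converges to the period-three sequence `0,1,1`, the zero being in the residue
class of `i` -/
def ConvCycle (x : ℕ → ℝ) (i : ℕ) : Prop :=
  Tendsto (fun k => x (3 * k + i)) atTop (𝓝 0) ∧
  Tendsto (fun k => x (3 * k + i + 1)) atTop (𝓝 1) ∧
  Tendsto (fun k => x (3 * k + i + 2)) atTop (𝓝 1)

/-- the terms in the residue class of `i` tend to infinity, the others to zero -/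
def Escape (x : ℕ → ℝ) (i : ℕ) : Prop :=
  Tendsto (fun k => x (3 * k + i)) atTop atTop ∧
  Tendsto (fun k => x (3 * k + i + 1)) atTop (𝓝 0) ∧
  Tendsto (fun k => x (3 * k + i + 2)) atTop (𝓝 0)

lemma tendsto_of_three {u : ℕ → ℝ} {F : Filter ℝ} (h0 : Tendsto (fun k => u (3 * k)) atTop F)
    (h1 : Tendsto (fun k => u (3 * k + 1)) atTop F)
    (h2 : Tendsto (fun k => u (3 * k + 2)) atTop F) : Tendsto u atTop F := by
  intro S hS
  obtain ⟨a, ha⟩ := eventually_atTop.1 (h0 hS)
  obtain ⟨b, hb⟩ := eventually_atTop.1 (h1 hS)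
  obtain ⟨c, hc⟩ := eventually_atTop.1 (h2 hS)
  refine mem_map.2 (mem_atTop_sets.2 ⟨3 * (a + b + c) + 3, fun n hn => ?_⟩)
  have hdiv := Nat.div_add_mod n 3
  have hlt := Nat.mod_lt n (show 0 < 3 by norm_num)
  set q := n / 3 with hq
  have hcase : n = 3 * q ∨ n = 3 * q + 1 ∨ n = 3 * q + 2 := by omega
  rcases hcase with e | e | e
  · have := ha q (by omega)
    show u n ∈ S
    rw [e]; exact this
  · have := hb q (by omega)
    show u n ∈ S
    rw [e]; exact this
  · have := hc q (by omega)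
    show u n ∈ S
    rw [e]; exact this

/-- bounded solutions: the two possible behaviours -/
lemma bounded_cases (h : IsSol x) {M : ℝ} (hM : ∀ n, x n ≤ M) :
    (ConvHalf x ∧ ∀ n, V x n ≤ 3 / 4) ∨
      ((∃ i < 3, ConvCycle x i) ∧ (∀ n, V x n ≤ 1) ∧ Tendsto (V x) atTop (𝓝 1)) := by
  obtain ⟨a, b, c, hl, ha, hb, hc⟩ := limits_of_bounded h hM
  have hV : Tendsto (fun k => V x (3 * k)) atTop (𝓝 (a + b + c - a * b - b * c - a * c)) := by
    have := ((((ha.add hb).add hc).sub (ha.mul hb)).sub (hb.mul hc)).sub (ha.mul hc)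
    exact this
  have ht0 : Tendsto (fun k : ℕ => 3 * k) atTop atTop :=
    tendsto_atTop_mono (fun k => by simp only [id]; omega) tendsto_id
  have hVle : ∀ n, V x n ≤ a + b + c - a * b - b * c - a * c := by
    intro n
    refine ge_of_tendsto hV (eventually_atTop.2 ⟨n, fun k hk => ?_⟩)
    exact V_mono h (by omega)
  have hVt : Tendsto (V x) atTop (𝓝 (a + b + c - a * b - b * c - a * c)) := by
    have h1 := tendsto_atTop_ciSup (V_mono h) ⟨_, by rintro _ ⟨n, rfl⟩; exact hVle n⟩
    have h2 := h1.comp ht0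
    rwa [tendsto_nhds_unique h2 hV] at h1
  have ha' : Tendsto (fun k => x (3 * k + 3)) atTop (𝓝 a) := by
    refine ((tendsto_add_atTop_iff_nat 1).2 ha).congr fun k => ?_
    rw [show 3 * (k + 1) = 3 * k + 3 by ring]
  have hb' : Tendsto (fun k => x (3 * k + 4)) atTop (𝓝 b) := by
    refine ((tendsto_add_atTop_iff_nat 1).2 hb).congr fun k => ?_
    rw [show 3 * (k + 1) + 1 = 3 * k + 4 by ring]
  rcases hl with ⟨rfl, rfl, rfl⟩ | ⟨rfl, rfl, rfl⟩ | ⟨rfl, rfl, rfl⟩ | ⟨rfl, rfl, rfl⟩
  · left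
    refine ⟨tendsto_of_three ha hb hc, fun n => (hVle n).trans (by norm_num)⟩
  · right
    refine ⟨⟨0, by norm_num, ha, hb, hc⟩, fun n => (hVle n).trans (by norm_num), ?_⟩
    convert hVt using 2; norm_num
  · right
    refine ⟨⟨1, by norm_num, hb, hc, ha'⟩, fun n => (hVle n).trans (by norm_num), ?_⟩
    convert hVt using 2; norm_num
  · right
    refine ⟨⟨2, by norm_num, hc, ha', hb'⟩, fun n => (hVle n).trans (by norm_num), ?_⟩
    convert hVt using 2; norm_num

theorem bounded_iff (h : IsSol x) : (∃ M, ∀ n, x n ≤ M) ↔ ∀ n, V x n ≤ 1 := by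
  constructor
  · rintro ⟨M, hM⟩ n
    rcases bounded_cases h hM with ⟨_, h1⟩ | ⟨_, h1, _⟩
    · linarith [h1 n]
    · exact h1 n
  · intro hV
    exact bounded_of_V h hV

lemma V_tendsto_top (h : IsSol x) {n : ℕ} (hn : 1 < V x n) : Tendsto (V x) atTop atTop := by
  rcases tendsto_atTop_of_monotone (V_mono h) with h1 | ⟨l, hl⟩
  · exact h1
  · exfalso
    have hb : ∀ n, V x n ≤ l := (V_mono h).ge_of_tendsto hl
    have := (bounded_iff h).1 (bounded_of_V h hb) n
    linarith

lemma big_aux {X Y Z : ℝ} (hX : 1 < X) (hY : 0 < Y) (hZ : 0 < Z)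
    (hV : 1 < X + Y + Z - X * Y - Y * Z - X * Z) :
    Y + Z < 1 ∧ X + Y + Z - X * Y - Y * Z - X * Z ≤ X := by
  have h1 : 0 < (X - 1) * (1 - Y - Z) := by nlinarith [mul_pos hY hZ]
  have h2 : 0 < 1 - Y - Z := by
    rcases (mul_pos_iff.1 h1) with ⟨_, h⟩ | ⟨h, _⟩
    · exact h
    · linarith
  refine ⟨by linarith, ?_⟩
  nlinarith [mul_pos hY hZ, mul_pos (sub_pos.2 hX) hY, mul_pos (sub_pos.2 hX) hZ]

lemma exists_big {X Y Z : ℝ} (hX : 0 < X) (hY : 0 < Y) (hZ : 0 < Z)
    (hV : 1 < X + Y + Z - X * Y - Y * Z - X * Z) : 1 < X ∨ 1 < Y ∨ 1 < Z := by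
  by_contra hcon
  push Not at hcon
  obtain ⟨h1, h2, h3⟩ := hcon
  have := mul_nonneg (mul_nonneg (sub_nonneg.2 h1) (sub_nonneg.2 h2)) (sub_nonneg.2 h3)
  have := mul_pos (mul_pos hX hY) hZ
  nlinarith

lemma window (h : IsSol x) {n : ℕ} (hV : 1 < V x n) (hb : 1 < x n) (k : ℕ) :
    1 < x (n + 3 * k) ∧ x (n + 3 * k + 1) + x (n + 3 * k + 2) < 1 ∧
      V x (n + 3 * k) ≤ x (n + 3 * k) := by
  induction k with
  | zero =>
    have := big_aux hb (h.1 (n + 1)) (h.1 (n + 2)) hV
    exact ⟨hb, this.1, this.2⟩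
  | succ k ih =>
    have hV' : 1 < V x (n + 3 * (k + 1)) := lt_of_lt_of_le hV (V_mono h (by omega))
    have r := rec_mul h (n + 3 * k)
    have p1 := h.1 (n + 3 * k + 1)
    have p2 := h.1 (n + 3 * k + 2)
    have p3 := h.1 (n + 3 * k + 3)
    have hb' : 1 < x (n + 3 * (k + 1)) := by
      rw [show n + 3 * (k + 1) = n + 3 * k + 3 by ring]
      nlinarith [ih.1, ih.2.1]
    have := big_aux hb' (h.1 (n + 3 * (k + 1) + 1)) (h.1 (n + 3 * (k + 1) + 2)) hV'
    exact ⟨hb', this.1, this.2⟩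

lemma escape_of (h : IsSol x) {m i : ℕ} (hV : 1 < V x (3 * m + i)) (hb : 1 < x (3 * m + i)) :
    Escape x i := by
  have hVt := V_tendsto_top h hV
  have hw : ∀ k, m ≤ k → 1 < x (3 * k + i) ∧ x (3 * k + i + 1) + x (3 * k + i + 2) < 1 ∧
      V x (3 * k + i) ≤ x (3 * k + i) := by
    intro k hk
    obtain ⟨j, rfl⟩ := Nat.exists_eq_add_of_le hk
    have := window h hV hb j
    rw [show 3 * m + i + 3 * j = 3 * (m + j) + i by ring] at this
    exact this
  have ht : Tendsto (fun k : ℕ => 3 * k + i) atTop atTop :=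
    tendsto_atTop_mono (fun k => by simp only [id]; omega) tendsto_id
  have h1 : Tendsto (fun k => x (3 * k + i)) atTop atTop := by
    refine tendsto_atTop_mono' _ ?_ (hVt.comp ht)
    filter_upwards [eventually_ge_atTop m] with k hk
    exact (hw k hk).2.2
  have h1' : Tendsto (fun k => 2 / x (3 * k + i)) atTop (𝓝 0) := h1.const_div_atTop 2
  have h1'' : Tendsto (fun k => 2 / x (3 * (k + 1) + i)) atTop (𝓝 0) :=
    (tendsto_add_atTop_iff_nat 1).2 h1'
  refine ⟨h1, ?_, ?_⟩
  · rw [← tendsto_add_atTop_iff_nat 1]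
    refine squeeze_zero' (Eventually.of_forall fun k => (h.1 _).le) ?_ h1''
    filter_upwards [eventually_ge_atTop m] with k hk
    have hk' := hw k hk
    have hk3 := (hw (k + 1) (by omega)).1
    have p1 := h.1 (3 * k + i + 1)
    have p2 := h.1 (3 * k + i + 2)
    have p4 := h.1 (3 * k + i + 4)
    have r := rec_mul h (3 * k + i + 1)
    rw [show 3 * k + i + 1 + 3 = 3 * k + i + 4 by ring, show 3 * k + i + 1 + 2 = 3 * k + i + 3 by ring,
      show 3 * k + i + 1 + 1 = 3 * k + i + 2 by ring] at r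
    rw [show 3 * (k + 1) + i = 3 * k + i + 3 by ring] at hk3 ⊢
    rw [show 3 * k + i + 3 + 1 = 3 * k + i + 4 by ring, le_div_iff₀ (by linarith)]
    nlinarith [hk'.2.1]
  · rw [← tendsto_add_atTop_iff_nat 1]
    refine squeeze_zero' (Eventually.of_forall fun k => (h.1 _).le) ?_ h1''
    filter_upwards [eventually_ge_atTop m] with k hk
    have hk' := hw k hk
    have hk3 := (hw (k + 1) (by omega)).1
    have p1 := h.1 (3 * k + i + 1)
    have p2 := h.1 (3 * k + i + 2)
    have p4 := h.1 (3 * k + i + 4)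
    have p5 := h.1 (3 * k + i + 5)
    have r := rec_mul h (3 * k + i + 2)
    rw [show 3 * k + i + 2 + 3 = 3 * k + i + 5 by ring, show 3 * k + i + 2 + 2 = 3 * k + i + 4 by ring,
      show 3 * k + i + 2 + 1 = 3 * k + i + 3 by ring] at r
    rw [show 3 * (k + 1) + i = 3 * k + i + 3 by ring] at hk3 ⊢
    rw [show 3 * k + i + 3 + 2 = 3 * k + i + 5 by ring, le_div_iff₀ (by linarith)]
    nlinarith [hk'.2.1]

lemma exists_escape (h : IsSol x) {n : ℕ} (hn : 1 < V x n) :
    ∃ i < 3, ∃ k, 1 < V x (3 * k + i) ∧ 1 < x (3 * k + i) := by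
  obtain ⟨j, hj, hVj⟩ : ∃ j, 1 < x j ∧ 1 < V x j := by
    rcases exists_big (h.1 n) (h.1 (n + 1)) (h.1 (n + 2)) hn with h1 | h1 | h1
    · exact ⟨n, h1, hn⟩
    · exact ⟨n + 1, h1, lt_of_lt_of_le hn (V_mono h (by omega))⟩
    · exact ⟨n + 2, h1, lt_of_lt_of_le hn (V_mono h (by omega))⟩
  refine ⟨j % 3, Nat.mod_lt _ (by norm_num), j / 3, ?_, ?_⟩
  · rw [Nat.div_add_mod]; exact hVj
  · rw [Nat.div_add_mod]; exact hj

lemma escape_unbounded {i : ℕ} (he : Escape x i) : ¬ ∃ M, ∀ n, x n ≤ M := by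
  rintro ⟨M, hM⟩
  obtain ⟨k, hk⟩ := (he.1.eventually_gt_atTop M).exists
  exact absurd (hM _) (not_le.2 hk)

theorem escape_iff (h : IsSol x) (i : ℕ) :
    Escape x i ↔ ∃ k, 1 < V x (3 * k + i) ∧ 1 < x (3 * k + i) := by
  constructor
  · intro he
    have hub := escape_unbounded he
    rw [bounded_iff h] at hub
    push Not at hub
    obtain ⟨n, hn⟩ := hub
    have ht : Tendsto (fun k : ℕ => 3 * k + i) atTop atTop :=
      tendsto_atTop_mono (fun k => by simp only [id]; omega) tendsto_id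
    exact ((((V_tendsto_top h hn).comp ht).eventually_gt_atTop 1).and
      (he.1.eventually_gt_atTop 1)).exists
  · rintro ⟨k, h1, h2⟩
    exact escape_of h h1 h2

theorem trichotomy (h : IsSol x) :
    (ConvHalf x ∧ ∀ n, V x n ≤ 3 / 4) ∨
    ((∃ i < 3, ConvCycle x i) ∧ (∀ n, V x n ≤ 1) ∧ Tendsto (V x) atTop (𝓝 1)) ∨
    ((∃ i < 3, Escape x i) ∧ Tendsto (V x) atTop atTop) := by
  by_cases hb : ∃ M, ∀ n, x n ≤ M
  · obtain ⟨M, hM⟩ := hb
    rcases bounded_cases h hM with h1 | h1
    · exact Or.inl h1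
    · exact Or.inr (Or.inl h1)
  · rw [bounded_iff h] at hb
    push Not at hb
    obtain ⟨n, hn⟩ := hb
    right; right
    obtain ⟨i, hi, k, h1, h2⟩ := exists_escape h hn
    exact ⟨⟨i, hi, escape_of h h1 h2⟩, V_tendsto_top h hn⟩

lemma convCycle_not_half {i : ℕ} (hc : ConvCycle x i) : ¬ ConvHalf x := by
  intro hh
  have ht : Tendsto (fun k : ℕ => 3 * k + i) atTop atTop :=
    tendsto_atTop_mono (fun k => by simp only [id]; omega) tendsto_id
  have := tendsto_nhds_unique hc.1 (hh.comp ht)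
  norm_num at this

theorem convHalf_iff (h : IsSol x) : ConvHalf x ↔ ∀ n, V x n ≤ 3 / 4 := by
  constructor
  · intro hh
    rcases trichotomy h with h1 | ⟨⟨i, _, h1⟩, _⟩ | ⟨⟨i, _, h1⟩, _⟩
    · exact h1.2
    · exact absurd hh (convCycle_not_half h1)
    · exfalso
      have ht : Tendsto (fun k : ℕ => 3 * k + i) atTop atTop :=
        tendsto_atTop_mono (fun k => by simp only [id]; omega) tendsto_id
      exact not_tendsto_atTop_of_tendsto_nhds (hh.comp ht) h1.1
  · intro hV
    rcases trichotomy h with h1 | ⟨_, _, h1⟩ | ⟨_, h1⟩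
    · exact h1.1
    · exfalso
      have := le_of_tendsto h1 (Eventually.of_forall hV)
      norm_num at this
    · exfalso
      obtain ⟨n, hn⟩ := (h1.eventually_gt_atTop (3 / 4)).exists
      exact absurd (hV n) (not_le.2 hn)

theorem convCycle_iff (h : IsSol x) :
    (∃ i < 3, ConvCycle x i) ↔ (∀ n, V x n ≤ 1) ∧ ∃ n, 3 / 4 < V x n := by
  constructor
  · rintro ⟨i, hi, hc⟩
    rcases trichotomy h with h1 | ⟨_, h1, h2⟩ | ⟨⟨j, hj, h1⟩, h2⟩
    · exact absurd h1.1 (convCycle_not_half hc)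
    · refine ⟨h1, ?_⟩
      exact (h2.eventually (lt_mem_nhds (show (3 / 4 : ℝ) < 1 by norm_num))).exists
    · exfalso
      -- a solution converging to the cycle is bounded in each class
      have ev : ∀ᶠ n in atTop, x n < 2 := by
        have hci : ∀ r, (∃ t : ℝ, t < 2 ∧ Tendsto (fun k => x (3 * k + i + r)) atTop (𝓝 t)) →
            ∀ᶠ k in atTop, x (3 * k + i + r) < 2 := by
          rintro r ⟨t, ht, hr⟩
          exact hr.eventually (gt_mem_nhds ht)
        have e0 := hci 0 ⟨0, by norm_num, hc.1⟩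
        have e1 := hci 1 ⟨1, by norm_num, hc.2.1⟩
        have e2 := hci 2 ⟨1, by norm_num, hc.2.2⟩
        obtain ⟨K, hK⟩ := eventually_atTop.1 (e0.and (e1.and e2))
        refine eventually_atTop.2 ⟨3 * K + i, fun n hn => ?_⟩
        obtain ⟨q, hq⟩ : ∃ q, K ≤ q ∧ (n = 3 * q + i + 0 ∨ n = 3 * q + i + 1 ∨ n = 3 * q + i + 2) :=
          ⟨(n - i) / 3, by omega, by omega⟩
        rcases hq.2 with e | e | e
        · rw [e]; exact (hK q hq.1).1
        · rw [e]; exact (hK q hq.1).2.1
        · rw [e]; exact (hK q hq.1).2.2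
      have ht : Tendsto (fun k : ℕ => 3 * k + j) atTop atTop :=
        tendsto_atTop_mono (fun k => by simp only [id]; omega) tendsto_id
      obtain ⟨k, hk1, hk2⟩ := ((h1.1.eventually_gt_atTop 2).and (ht.eventually ev)).exists
      linarith
  · rintro ⟨h1, n, hn⟩
    rcases trichotomy h with h2 | ⟨h2, _, _⟩ | ⟨_, h2⟩
    · exact absurd (h2.2 n) (not_le.2 hn)
    · exact h2
    · exfalso
      obtain ⟨m, hm⟩ := (h2.eventually_gt_atTop 1).exists
      exact absurd (h1 m) (not_le.2 hm)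

theorem exists_escape_iff (h : IsSol x) : (∃ i < 3, Escape x i) ↔ ∃ n, 1 < V x n := by
  constructor
  · rintro ⟨i, _, hi⟩
    obtain ⟨k, hk, _⟩ := (escape_iff h i).1 hi
    exact ⟨_, hk⟩
  · rintro ⟨n, hn⟩
    obtain ⟨i, hi, k, h1, h2⟩ := exists_escape h hn
    exact ⟨i, hi, escape_of h h1 h2⟩

/-- the escaping class is unique -/
lemma escape_unique {i j : ℕ} (hi : i < 3) (hj : j < 3) (h1 : Escape x i) (h2 : Escape x j) :
    i = j := by
  by_contra hne
  have hcases : (∃ r, r = 1 ∧ (j = i + r ∨ j + 3 = i + r)) ∨ (∃ r, r = 2 ∧ (j = i + r ∨ j + 3 = i + r)) := by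
    interval_cases i <;> interval_cases j <;> simp_all
  have ht1 : Tendsto (fun k : ℕ => k + 1) atTop atTop := tendsto_add_atTop_nat 1
  rcases hcases with ⟨r, rfl, hr⟩ | ⟨r, rfl, hr⟩
  · rcases hr with hr | hr
    · refine not_tendsto_atTop_of_tendsto_nhds h1.2.1 (h2.1.congr fun k => ?_)
      rw [hr]; rfl
    · refine not_tendsto_atTop_of_tendsto_nhds h1.2.1 ((h2.1.comp ht1).congr fun k => ?_)
      simp only [Function.comp_apply]
      congr 1; omega
  · rcases hr with hr | hr
    · refine not_tendsto_atTop_of_tendsto_nhds h1.2.2 (h2.1.congr fun k => ?_)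
      rw [hr]; rfl
    · refine not_tendsto_atTop_of_tendsto_nhds h1.2.2 ((h2.1.comp ht1).congr fun k => ?_)
      simp only [Function.comp_apply]
      congr 1; omega

end Pool.Agent.H959.B43024
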