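import Pool.Agent.H959.B43024.Topo

namespace Pool.Agent.H959.B43024

open Filter Topology Set

lemma G_ge {s : ℝ} (hs : 1 / 2 ≤ s) {p : ℝ × ℝ × ℝ} (h : s ≤ p.1 ∧ s ≤ p.2.1 ∧ s ≤ p.2.2) :
    s ≤ (G p).1 ∧ s ≤ (G p).2.1 ∧ s ≤ (G p).2.2 := by
  obtain ⟨h0, h1, h2⟩ := h
  refine ⟨?_, h0, h1⟩
  simp only [G]
  nlinarith

lemma iter_G_ge {s : ℝ} (hs : 1 / 2 ≤ s) (n : ℕ) {p : ℝ × ℝ × ℝ}
    (h : s ≤ p.1 ∧ s ≤ p.2.1 ∧ s ≤ p.2.2) :
    s ≤ (G^[n] p).1 ∧ s ≤ (G^[n] p).2.1 ∧ s ≤ (G^[n] p).2.2 := by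
  induction n with
  | zero => exact h
  | succ n ih => rw [Function.iterate_succ_apply']; exact G_ge hs ih

lemma iter_G_half (n : ℕ) : G^[n] (1 / 2, 1 / 2, 1 / 2) = (1 / 2, 1 / 2, 1 / 2) := by
  induction n with
  | zero => rfl
  | succ n ih =>
    rw [Function.iterate_succ_apply', ih]
    simp only [G]
    norm_num

/-- for every `a > 1/2` some solution with first term `a` converges to `1/2` -/
theorem exists_half {a : ℝ} (ha : 1 / 2 < a) :
    ∃ b c : ℝ, 1 / 2 ≤ b ∧ 1 / 2 ≤ c ∧ ConvHalf (sol (a, b, c)) := by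
  have step : ∀ n : ℕ, ∃ s : ℝ, 1 / 2 ≤ s ∧ (G^[n + 1] (s, s, s)).1 = a := by
    intro n
    have hc : ContinuousOn (fun s : ℝ => (G^[n + 1] (s, s, s)).1) (Icc (1 / 2) a) := by
      have h1 : Continuous (fun s : ℝ => ((s, s, s) : ℝ × ℝ × ℝ)) := by fun_prop
      exact (continuous_fst.comp ((continuous_G.iterate (n + 1)).comp h1)).continuousOn
    have h1 := intermediate_value_Icc ha.le hc
    have h2 : a ∈ Icc (G^[n + 1] ((1 / 2 : ℝ), (1 / 2 : ℝ), (1 / 2 : ℝ))).1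
        (G^[n + 1] (a, a, a)).1 := by
      constructor
      · rw [iter_G_half]; exact ha.le
      · exact (iter_G_ge ha.le (n + 1) (p := (a, a, a)) ⟨le_rfl, le_rfl, le_rfl⟩).1
    obtain ⟨s, hs, hs'⟩ := h1 h2
    exact ⟨s, hs.1, hs'⟩
  choose s hs1 hs2 using step
  set P : ℕ → ℝ × ℝ × ℝ := fun n => G^[n + 1] (s n, s n, s n) with hP
  set K : Set (ℝ × ℝ × ℝ) := {a} ×ˢ (Icc (1 / 2) (4 * a) ×ˢ Icc (1 / 2) (4 * a)) with hK
  have hPK : ∀ n, P n ∈ K := by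
    intro n
    have h1 := iter_G_ge (le_refl (1 / 2 : ℝ)) n (p := (s n, s n, s n)) ⟨hs1 n, hs1 n, hs1 n⟩
    have h2 := iter_G_ge (le_refl (1 / 2 : ℝ)) (n + 1) (p := (s n, s n, s n))
      ⟨hs1 n, hs1 n, hs1 n⟩
    have h3 : P n = G (G^[n] (s n, s n, s n)) := Function.iterate_succ_apply' _ _ _
    have h4 : (P n).1 = a := hs2 n
    set r := G^[n] (s n, s n, s n) with hr
    have e1 : (P n).1 = r.2.2 * (1 + r.1 + r.2.1) / 2 := by rw [h3]; rfl
    have e2 : (P n).2.1 = r.1 := by rw [h3]; rfl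
    have e3 : (P n).2.2 = r.2.1 := by rw [h3]; rfl
    have hb : (1 + r.1 + r.2.1) ≤ 4 * a := by
      rw [h4] at e1
      nlinarith [h1.1, h1.2.1, h1.2.2]
    refine ⟨h4, ⟨?_, ?_⟩, ⟨?_, ?_⟩⟩
    · exact h2.2.1
    · rw [e2]; linarith [h1.1, h1.2.1]
    · exact h2.2.2
    · rw [e3]; linarith [h1.1, h1.2.1]
  have hKc : IsCompact K := isCompact_singleton.prod (isCompact_Icc.prod isCompact_Icc)
  obtain ⟨q, hq, φ, hφ, hlim⟩ := hKc.tendsto_subseq hPK
  obtain ⟨q1, ⟨q2, q2'⟩, ⟨q3, q3'⟩⟩ := hq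
  have hq1 : q.1 = a := q1
  have hqO : q ∈ Oct := ⟨by rw [hq1]; linarith, by linarith, by linarith⟩
  have hV : ∀ m, V (sol q) m ≤ 3 / 4 := by
    intro m
    have hcont : Tendsto (fun k => V (sol (P (φ k))) m) atTop (𝓝 (V (sol q) m)) := by
      have : ContinuousAt (fun p => V (sol p) m) q :=
        (continuousOn_V m).continuousAt (isOpen_Oct.mem_nhds hqO)
      exact this.tendsto.comp hlim
    refine le_of_tendsto hcont (eventually_atTop.2 ⟨m, fun k hk => ?_⟩)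
    have hk' : m ≤ φ k := hk.trans (hφ.id_le k)
    set n := φ k with hn
    have hsO : ((s n, s n, s n) : ℝ × ℝ × ℝ) ∈ Oct := by
      have := hs1 n
      exact ⟨by show 0 < s n; linarith, by show 0 < s n; linarith, by show 0 < s n; linarith⟩
    have hPO : P n ∈ Oct := iter_G_mem (n + 1) hsO
    have h1 : V (sol (P n)) m ≤ V (sol (P n)) (n + 1) := V_mono (sol_isSol hPO) (by omega)
    have h2 : V (sol (P n)) (n + 1) = V (sol (s n, s n, s n)) 0 := by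
      simp only [V]
      have e0 := sol_iter_G (n + 1) hsO 0
      have e1 := sol_iter_G (n + 1) hsO 1
      have e2 := sol_iter_G (n + 1) hsO 2
      rw [show 0 + (n + 1) = n + 1 by ring] at e0
      rw [show 1 + (n + 1) = n + 1 + 1 by ring] at e1
      rw [show 2 + (n + 1) = n + 1 + 2 by ring] at e2
      rw [hP]
      simp only [e0, e1, e2, zero_add]
    have h3 : V (sol (s n, s n, s n)) 0 ≤ 3 / 4 := by
      simp only [V, sol]
      nlinarith [sq_nonneg (s n - 1 / 2)]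
    linarith
  refine ⟨q.2.1, q.2.2, q2, q3, ?_⟩
  have : (a, q.2.1, q.2.2) = q := by rw [← hq1]
  rw [this, convHalf_iff (sol_isSol hqO)]
  exact hV

end Pool.Agent.H959.B43024
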