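import Pool.Agent.H959.B43024.Basic

namespace Pool.Agent.H959.B43024

open Filter Topology

variable {x z : ℕ → ℝ}

lemma diff_rel (hx : IsSol x) (hz : IsSol z) (n : ℕ) :
    (z (n + 3) - x (n + 3)) * (1 + x (n + 1) + x (n + 2)) =
      2 * (z n - x n) - z (n + 3) * ((z (n + 1) - x (n + 1)) + (z (n + 2) - x (n + 2))) := by
  have h1 := rec_mul hx n
  have h2 := rec_mul hz n
  linarith

/-- one cycle of the linearised expansion near `(0,1,1)` -/
lemma cyc_step {al be ga al' be' ga' s0 s1 s2 z3 z4 z5 : ℝ}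
    (r0 : al' * (1 + s0) = 2 * al - z3 * (be + ga))
    (r1 : be' * (1 + s1) = 2 * be - z4 * (ga + al'))
    (r2 : ga' * (1 + s2) = 2 * ga - z5 * (al' + be'))
    (hs0 : |s0 - 2| ≤ 1 / 500) (hs1 : |s1 - 1| ≤ 1 / 500) (hs2 : |s2 - 1| ≤ 1 / 500)
    (hz3 : |z3| ≤ 1 / 1000) (hz4 : |z4 - 1| ≤ 1 / 1000) (hz5 : |z5 - 1| ≤ 1 / 1000)
    (hbe : 0 < be) (h1 : -2 * be ≤ ga) (h2 : ga ≤ -(2 / 5) * be) (h3 : |al| ≤ be / 10) :
    0 < be' ∧ -2 * be' ≤ ga' ∧ ga' ≤ -(2 / 5) * be' ∧ |al'| ≤ be' / 10 ∧ 11 / 10 * be ≤ be' := by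
  rw [abs_le] at hs0 hs1 hs2 hz3 hz4 hz5 h3
  obtain ⟨a1, a2⟩ := hs0
  obtain ⟨b1, b2⟩ := hs1
  obtain ⟨c1, c2⟩ := hs2
  obtain ⟨d1, d2⟩ := hz3
  obtain ⟨e1, e2⟩ := hz4
  obtain ⟨f1, f2⟩ := hz5
  obtain ⟨g1, g2⟩ := h3
  -- bound for al'
  have hbg : |be + ga| ≤ be := by rw [abs_le]; constructor <;> linarith
  have hzb : |z3 * (be + ga)| ≤ 1 / 1000 * be := by
    rw [abs_mul]
    exact mul_le_mul (abs_le.2 ⟨d1, d2⟩) hbg (abs_nonneg _) (by norm_num)
  rw [abs_le] at hzb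
  have hal1 : al' ≤ 7 / 100 * be := by
    by_contra hh
    push Not at hh
    nlinarith [mul_le_mul_of_nonneg_left a1 (show 0 ≤ al' by linarith)]
  have hal2 : -(7 / 100) * be ≤ al' := by
    by_contra hh
    push Not at hh
    nlinarith [mul_le_mul_of_nonneg_left a1 (show 0 ≤ -al' by linarith)]
  -- w := -(ga + al') ≥ 0
  have hw1 : 33 / 100 * be ≤ -(ga + al') := by linarith
  have hw2 : -(ga + al') ≤ 207 / 100 * be := by linarith
  have hzw : |(z4 - 1) * (-(ga + al'))| ≤ 1 / 1000 * (207 / 100 * be) := by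
    rw [abs_mul]
    refine mul_le_mul (abs_le.2 ⟨e1, e2⟩) ?_ (abs_nonneg _) (by norm_num)
    rw [abs_of_nonneg (by linarith)]; exact hw2
  rw [abs_le] at hzw
  have hr1 : be' * (1 + s1) = 2 * be - (ga + al') + (z4 - 1) * (-(ga + al')) := by linarith
  have hbe1 : 0 < be' := by
    by_contra hh
    push Not at hh
    nlinarith [mul_nonneg (show (0 : ℝ) ≤ -be' by linarith) (show (0 : ℝ) ≤ 1 + s1 by linarith)]
  have hup : be' * (1 + s1) ≤ be' * (2 + 1 / 500) := by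
    apply mul_le_mul_of_nonneg_left _ hbe1.le; linarith
  have hlo : be' * (2 - 1 / 500) ≤ be' * (1 + s1) := by
    apply mul_le_mul_of_nonneg_left _ hbe1.le; linarith
  have hg : 11 / 10 * be ≤ be' := by linarith
  -- al' + be'
  have hab1 : 0 < al' + be' := by linarith
  have hab2 : al' + be' ≤ be' + 7 / 100 * be := by linarith
  have hz5 : |(z5 - 1) * (al' + be')| ≤ 1 / 1000 * (2 * be') := by
    rw [abs_mul]
    refine mul_le_mul (abs_le.2 ⟨f1, f2⟩) ?_ (abs_nonneg _) (by norm_num)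
    rw [abs_of_nonneg hab1.le]; linarith
  rw [abs_le] at hz5
  have hr2 : ga' * (1 + s2) = 2 * ga - (al' + be') - (z5 - 1) * (al' + be') := by linarith
  have hga' : ga' < 0 := by
    by_contra hh
    push Not at hh
    nlinarith [mul_nonneg hh (show (0 : ℝ) ≤ 1 + s2 by linarith)]
  have hup2 : -ga' * (1 + s2) ≤ -ga' * (2 + 1 / 500) := by
    apply mul_le_mul_of_nonneg_left _ (by linarith); linarith
  have hlo2 : -ga' * (2 - 1 / 500) ≤ -ga' * (1 + s2) := by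
    apply mul_le_mul_of_nonneg_left _ (by linarith); linarith
  have hal' : |al'| ≤ be' / 10 := by rw [abs_le]; constructor <;> linarith
  refine ⟨hbe1, ?_, ?_, hal', hg⟩
  · -- -ga' ≤ 2 be'
    -- be' (2+1/500) ≥ 2 be + w - small, so w ≤ ..., -ga = w + al'
    linarith
  · linarith

theorem no_pair_cycle (hx : IsSol x) (hz : IsSol z)
    (hx0 : ∀ k, |x (3 * k)| ≤ 1 / 1000) (hx1 : ∀ k, |x (3 * k + 1) - 1| ≤ 1 / 1000)
    (hx2 : ∀ k, |x (3 * k + 2) - 1| ≤ 1 / 1000)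
    (hz0 : ∀ k, |z (3 * k)| ≤ 1 / 1000) (hz1 : ∀ k, |z (3 * k + 1) - 1| ≤ 1 / 1000)
    (hz2 : ∀ k, |z (3 * k + 2) - 1| ≤ 1 / 1000)
    {t : ℝ} (ht : 0 < t) (h0 : z 0 = x 0) (h1 : z 1 = x 1 + t) (h2 : z 2 = x 2 - t) : False := by
  have key : ∀ k, 0 < z (3 * k + 1) - x (3 * k + 1) ∧
      -2 * (z (3 * k + 1) - x (3 * k + 1)) ≤ z (3 * k + 2) - x (3 * k + 2) ∧
      z (3 * k + 2) - x (3 * k + 2) ≤ -(2 / 5) * (z (3 * k + 1) - x (3 * k + 1)) ∧
      |z (3 * k) - x (3 * k)| ≤ (z (3 * k + 1) - x (3 * k + 1)) / 10 ∧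
      (11 / 10) ^ k * t ≤ z (3 * k + 1) - x (3 * k + 1) := by
    intro k
    induction k with
    | zero =>
      simp only [mul_zero, zero_add, h0, h1, h2, pow_zero, one_mul]
      refine ⟨by linarith, by linarith, by linarith, ?_, by linarith⟩
      rw [sub_self, abs_zero]; linarith
    | succ k ih =>
      obtain ⟨i1, i2, i3, i4, i5⟩ := ih
      have r0 := diff_rel hx hz (3 * k)
      have r1 := diff_rel hx hz (3 * k + 1)
      have r2 := diff_rel hx hz (3 * k + 2)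
      have e3 : 3 * (k + 1) = 3 * k + 3 := by ring
      have a0 := hx0 (k + 1)
      have a1 := hx1 k
      have a2 := hx2 k
      have a4 := hx1 (k + 1)
      have b3 := hz0 (k + 1)
      have b4 := hz1 (k + 1)
      have b5 := hz2 (k + 1)
      rw [e3] at a0 a4 b3 b4 b5 ⊢
      simp only [show 3 * k + 3 + 1 = 3 * k + 4 by ring, show 3 * k + 3 + 2 = 3 * k + 5 by ring,
        show 3 * k + 1 + 1 = 3 * k + 2 by ring,
        show 3 * k + 1 + 2 = 3 * k + 3 by ring] at *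
      have q0 : (z (3 * k + 3) - x (3 * k + 3)) * (1 + (x (3 * k + 1) + x (3 * k + 2))) =
          2 * (z (3 * k) - x (3 * k)) - z (3 * k + 3) *
            ((z (3 * k + 1) - x (3 * k + 1)) + (z (3 * k + 2) - x (3 * k + 2))) := by
        rw [← add_assoc]; exact r0
      have q1 : (z (3 * k + 4) - x (3 * k + 4)) * (1 + (x (3 * k + 2) + x (3 * k + 3))) =
          2 * (z (3 * k + 1) - x (3 * k + 1)) - z (3 * k + 4) *
            ((z (3 * k + 2) - x (3 * k + 2)) + (z (3 * k + 3) - x (3 * k + 3))) := by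
        rw [← add_assoc]; exact r1
      have q2 : (z (3 * k + 5) - x (3 * k + 5)) * (1 + (x (3 * k + 3) + x (3 * k + 4))) =
          2 * (z (3 * k + 2) - x (3 * k + 2)) - z (3 * k + 5) *
            ((z (3 * k + 3) - x (3 * k + 3)) + (z (3 * k + 4) - x (3 * k + 4))) := by
        rw [← add_assoc]; exact r2
      have hs0 : |x (3 * k + 1) + x (3 * k + 2) - 2| ≤ 1 / 500 := by
        rw [abs_le] at a1 a2 ⊢; constructor <;> linarith [a1.1, a1.2, a2.1, a2.2]
      have hs1 : |x (3 * k + 2) + x (3 * k + 3) - 1| ≤ 1 / 500 := by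
        rw [abs_le] at a0 a2 ⊢; constructor <;> linarith [a0.1, a0.2, a2.1, a2.2]
      have hs2 : |x (3 * k + 3) + x (3 * k + 4) - 1| ≤ 1 / 500 := by
        rw [abs_le] at a0 a4 ⊢; constructor <;> linarith [a0.1, a0.2, a4.1, a4.2]
      have := cyc_step q0 q1 q2 hs0 hs1 hs2 b3 b4 b5 i1 i2 i3 i4
      refine ⟨this.1, this.2.1, this.2.2.1, this.2.2.2.1, ?_⟩
      rw [pow_succ]
      nlinarith [this.2.2.2.2]
  obtain ⟨k, hk⟩ := pow_unbounded_of_one_lt (1 / t) (show (1 : ℝ) < 11 / 10 by norm_num)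
  have h5 := (key k).2.2.2.2
  have h6 : 1 < (11 / 10) ^ k * t := by
    rwa [div_lt_iff₀ ht] at hk
  have a := hx1 k
  have b := hz1 k
  rw [abs_le] at a b
  linarith [a.1, a.2, b.1, b.2]

/-- `-e₂` -/
def Q (a b c : ℝ) : ℝ := -(a * b + b * c + a * c)

lemma half_aux (a b c u v w : ℝ)
    (hu : |u| ≤ 1 / 500 * (|a| + |b| + |c|)) (hv : |v| ≤ 1 / 500 * (|a| + |b| + |c|))
    (hw : |w| ≤ 1 / 500 * (|a| + |b| + |c|)) :
    Q a b c + 1 / 10 * (a ^ 2 + b ^ 2 + c ^ 2) ≤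
      Q (a - (b + c) / 4 + u) (b - (c + (a - (b + c) / 4)) / 4 + v)
        (c - ((a - (b + c) / 4) + (b - (c + (a - (b + c) / 4)) / 4)) / 4 + w) := by
  set d := a - (b + c) / 4 with hd
  set e := b - (c + d) / 4 with he
  set f := c - (d + e) / 4 with hf
  have hlin : Q a b c + 3 / 10 * (a ^ 2 + b ^ 2 + c ^ 2) ≤ Q d e f := by
    simp only [Q]
    rw [hf, he, hd]
    nlinarith [sq_nonneg (a + 115 / 116 * b + 135 / 116 * c), sq_nonneg (b + 45 / 193 * c),
      sq_nonneg c]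
  set R := |a| + |b| + |c| with hR
  have hR0 : 0 ≤ R := by positivity
  have ha := abs_le.1 (le_refl |a|)
  have hb := abs_le.1 (le_refl |b|)
  have hc := abs_le.1 (le_refl |c|)
  have hR2 : R ^ 2 ≤ 3 * (a ^ 2 + b ^ 2 + c ^ 2) := by
    have e1 := sq_abs a
    have e2 := sq_abs b
    have e3 := sq_abs c
    rw [hR, ← e1, ← e2, ← e3]
    nlinarith [sq_nonneg (|a| - |b|), sq_nonneg (|b| - |c|), sq_nonneg (|a| - |c|)]
  have pa := abs_nonneg a
  have pb := abs_nonneg b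
  have pc := abs_nonneg c
  have hdR : |d| ≤ 2 * R := by
    rw [abs_le]; constructor <;> linarith [ha.1, ha.2, hb.1, hb.2, hc.1, hc.2]
  have hd' := abs_le.1 hdR
  have heR : |e| ≤ 2 * R := by
    rw [abs_le]; constructor <;> linarith [ha.1, ha.2, hb.1, hb.2, hc.1, hc.2, hd'.1, hd'.2]
  have he' := abs_le.1 heR
  have hfR : |f| ≤ 2 * R := by
    rw [abs_le]; constructor <;> linarith [ha.1, ha.2, hb.1, hb.2, hc.1, hc.2, hd'.1, hd'.2, he'.1, he'.2]
  have m : ∀ p q : ℝ, |p| ≤ 2 * R → |q| ≤ 1 / 500 * R → |p * q| ≤ 1 / 250 * R ^ 2 := by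
    intro p q hp hq
    rw [abs_mul]
    calc |p| * |q| ≤ (2 * R) * (1 / 500 * R) := mul_le_mul hp hq (abs_nonneg _) (by positivity)
      _ = _ := by ring
  have m2 : ∀ p q : ℝ, |p| ≤ 1 / 500 * R → |q| ≤ 1 / 500 * R → |p * q| ≤ 1 / 250000 * R ^ 2 := by
    intro p q hp hq
    rw [abs_mul]
    calc |p| * |q| ≤ (1 / 500 * R) * (1 / 500 * R) :=
          mul_le_mul hp hq (abs_nonneg _) (by positivity)
      _ = _ := by ring
  have n1 := abs_le.1 (m d v hdR hv)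
  have n2 := abs_le.1 (m d w hdR hw)
  have n3 := abs_le.1 (m e u heR hu)
  have n4 := abs_le.1 (m e w heR hw)
  have n5 := abs_le.1 (m f u hfR hu)
  have n6 := abs_le.1 (m f v hfR hv)
  have k1 := abs_le.1 (m2 u v hu hv)
  have k2 := abs_le.1 (m2 v w hv hw)
  have k3 := abs_le.1 (m2 u w hu hw)
  have hexp : Q (d + u) (e + v) (f + w) = Q d e f - (d * v + d * w + e * u + e * w + f * u + f * v)
      - (u * v + v * w + u * w) := by simp only [Q]; ring
  rw [hexp]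
  linarith [n1.2, n2.2, n3.2, n4.2, n5.2, n6.2, k1.2, k2.2, k3.2]

lemma err_bound (p q s z X K : ℝ) (hK : 0 ≤ K) (h1 : p * (1 + s) = 2 * q - z * X)
    (h2 : |s - 1| ≤ 1 / 10000) (h3 : |z - 1 / 2| ≤ 1 / 10000) (h4 : |q| ≤ K) (h5 : |X| ≤ K) :
    |p - (q - X / 4)| ≤ 2 / 10000 * K ∧ |p| ≤ 2 * K := by
  have e1 : |(z - 1 / 2) * X| ≤ 1 / 10000 * K := by
    rw [abs_mul]; exact mul_le_mul h3 h5 (abs_nonneg _) (by norm_num)
  have h2' := abs_le.1 h2
  have h4' := abs_le.1 h4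
  have h5' := abs_le.1 h5
  have e1' := abs_le.1 e1
  have hp : |p| ≤ 2 * K := by
    by_contra hh
    push Not at hh
    have e2 : |p * (1 + s)| = |p| * (1 + s) := by
      rw [abs_mul, abs_of_pos (show 0 < 1 + s by linarith [h2'.1])]
    have e3 : |p * (1 + s)| ≤ 2 * K + 1 / 2 * K + 1 / 10000 * K := by
      rw [h1, abs_le]
      constructor <;> linarith [e1'.1, e1'.2, h4'.1, h4'.2, h5'.1, h5'.2]
    rw [e2] at e3
    have e4 : |p| * (2 - 1 / 10000) ≤ |p| * (1 + s) :=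
      mul_le_mul_of_nonneg_left (by linarith [h2'.1]) (abs_nonneg _)
    linarith
  refine ⟨?_, hp⟩
  have e4 : |p * (s - 1)| ≤ 2 * K * (1 / 10000) := by
    rw [abs_mul]; exact mul_le_mul hp h2 (abs_nonneg _) (by positivity)
  have e5 : 2 * (p - (q - X / 4)) = -((z - 1 / 2) * X) - p * (s - 1) := by linarith
  rw [abs_le] at e4 ⊢
  constructor <;> linarith [e1'.1, e1'.2, e4.1, e4.2]

lemma half_step {a b c d e f s0 s1 s2 z3 z4 z5 : ℝ}
    (r0 : d * (1 + s0) = 2 * a - z3 * (b + c))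
    (r1 : e * (1 + s1) = 2 * b - z4 * (c + d))
    (r2 : f * (1 + s2) = 2 * c - z5 * (d + e))
    (hs0 : |s0 - 1| ≤ 1 / 10000) (hs1 : |s1 - 1| ≤ 1 / 10000) (hs2 : |s2 - 1| ≤ 1 / 10000)
    (hz3 : |z3 - 1 / 2| ≤ 1 / 10000) (hz4 : |z4 - 1 / 2| ≤ 1 / 10000)
    (hz5 : |z5 - 1 / 2| ≤ 1 / 10000) :
    Q a b c + 1 / 10 * (a ^ 2 + b ^ 2 + c ^ 2) ≤ Q d e f := by
  set R := |a| + |b| + |c| with hR
  have pa := abs_nonneg a
  have pb := abs_nonneg b
  have pc := abs_nonneg c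
  have hR0 : 0 ≤ R := by positivity
  have ha := abs_le.1 (le_refl |a|)
  have hb := abs_le.1 (le_refl |b|)
  have hc := abs_le.1 (le_refl |c|)
  have gen := @err_bound
  have g0 := gen d a s0 z3 (b + c) R hR0 r0 hs0 hz3
    (by rw [abs_le]; constructor <;> linarith [ha.1, ha.2])
    (by rw [abs_le]; constructor <;> linarith [hb.1, hb.2, hc.1, hc.2])
  have hd := abs_le.1 g0.2
  have g1 := gen e b s1 z4 (c + d) (3 * R) (by positivity) r1 hs1 hz4
    (by rw [abs_le]; constructor <;> linarith [hb.1, hb.2])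
    (by rw [abs_le]; constructor <;> linarith [hc.1, hc.2, hd.1, hd.2])
  have he := abs_le.1 g1.2
  have g2 := gen f c s2 z5 (d + e) (8 * R) (by positivity) r2 hs2 hz5
    (by rw [abs_le]; constructor <;> linarith [hc.1, hc.2])
    (by rw [abs_le]; constructor <;> linarith [hd.1, hd.2, he.1, he.2])
  have k0 := abs_le.1 g0.1
  have k1 := abs_le.1 g1.1
  have k2 := abs_le.1 g2.1
  have main := half_aux a b c (d - (a - (b + c) / 4)) (e - (b - (c + (a - (b + c) / 4)) / 4))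
    (f - (c - ((a - (b + c) / 4) + (b - (c + (a - (b + c) / 4)) / 4)) / 4))
    (by rw [abs_le, ← hR]; constructor <;> linarith [k0.1, k0.2])
    (by rw [abs_le, ← hR]; constructor <;> linarith [k0.1, k0.2, k1.1, k1.2])
    (by rw [abs_le, ← hR]; constructor <;> linarith [k0.1, k0.2, k1.1, k1.2, k2.1, k2.2])
  simp only [add_sub_cancel] at main
  exact main

theorem no_pair_half (hx : IsSol x) (hz : IsSol z)
    (hxh : ∀ k, |x k - 1 / 2| ≤ 1 / 20000) (hzh : ∀ k, |z k - 1 / 2| ≤ 1 / 20000)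
    {t : ℝ} (ht : 0 < t) (h0 : z 0 = x 0 + t) (h1 : z 1 = x 1 - t) (h2 : z 2 = x 2) : False := by
  have key : ∀ k, (6 / 5) ^ k * t ^ 2 ≤ Q (z (3 * k) - x (3 * k)) (z (3 * k + 1) - x (3 * k + 1))
      (z (3 * k + 2) - x (3 * k + 2)) := by
    intro k
    induction k with
    | zero =>
      simp only [mul_zero, zero_add, h0, h1, h2, pow_zero, one_mul, Q]
      nlinarith
    | succ k ih =>
      have r0 := diff_rel hx hz (3 * k)
      have r1 := diff_rel hx hz (3 * k + 1)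
      have r2 := diff_rel hx hz (3 * k + 2)
      rw [show 3 * (k + 1) = 3 * k + 3 by ring]
      simp only [show 3 * k + 3 + 1 = 3 * k + 4 by ring, show 3 * k + 3 + 2 = 3 * k + 5 by ring,
        show 3 * k + 1 + 1 = 3 * k + 2 by ring, show 3 * k + 1 + 2 = 3 * k + 3 by ring] at *
      have hs : ∀ i j, |x i + x j - 1| ≤ 1 / 10000 := by
        intro i j
        have a := abs_le.1 (hxh i)
        have b := abs_le.1 (hxh j)
        rw [abs_le]; constructor <;> linarith [a.1, a.2, b.1, b.2]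
      have hz' : ∀ i, |z i - 1 / 2| ≤ 1 / 10000 := fun i => (hzh i).trans (by norm_num)
      rw [add_assoc 1] at r0 r1 r2
      have := half_step r0 r1 r2 (hs _ _) (hs _ _) (hs _ _) (hz' _) (hz' _) (hz' _)
      have hQ : Q (z (3 * k) - x (3 * k)) (z (3 * k + 1) - x (3 * k + 1))
          (z (3 * k + 2) - x (3 * k + 2)) ≤ 1 / 2 * ((z (3 * k) - x (3 * k)) ^ 2 +
            (z (3 * k + 1) - x (3 * k + 1)) ^ 2 + (z (3 * k + 2) - x (3 * k + 2)) ^ 2) := by
        simp only [Q]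
        nlinarith [sq_nonneg ((z (3 * k) - x (3 * k)) + (z (3 * k + 1) - x (3 * k + 1)) +
          (z (3 * k + 2) - x (3 * k + 2)))]
      rw [pow_succ]
      nlinarith
  obtain ⟨k, hk⟩ := pow_unbounded_of_one_lt (1 / t ^ 2) (show (1 : ℝ) < 6 / 5 by norm_num)
  have h5 := key k
  have h6 : 1 < (6 / 5) ^ k * t ^ 2 := by
    rwa [div_lt_iff₀ (by positivity)] at hk
  have dd : ∀ i, |z i - x i| ≤ 1 / 10000 := by
    intro i
    have a := abs_le.1 (hxh i)
    have b := abs_le.1 (hzh i)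
    rw [abs_le]; constructor <;> linarith [a.1, a.2, b.1, b.2]
  have m : ∀ i j, |(z i - x i) * (z j - x j)| ≤ 1 / 10000 * (1 / 10000) := by
    intro i j
    rw [abs_mul]; exact mul_le_mul (dd i) (dd j) (abs_nonneg _) (by norm_num)
  have m1 := abs_le.1 (m (3 * k) (3 * k + 1))
  have m2 := abs_le.1 (m (3 * k + 1) (3 * k + 2))
  have m3 := abs_le.1 (m (3 * k) (3 * k + 2))
  simp only [Q] at h5
  linarith [m1.1, m2.1, m3.1]

end Pool.Agent.H959.B43024
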