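import Pool.Agent.H959.B43024.Expand

namespace Pool.Agent.H959.B43024

open Filter Topology Set

/-- The solution with initial triple `p = (x_{-2}, x_{-1}, x_0)`, re-indexed so that
`sol p n` is `x_{n-2}`. -/
noncomputable def sol (p : ℝ × ℝ × ℝ) : ℕ → ℝ
  | 0 => p.1
  | 1 => p.2.1
  | 2 => p.2.2
  | n + 3 => 2 * sol p n / (1 + sol p (n + 2) + sol p (n + 1))

/-- the positive octant -/
def Oct : Set (ℝ × ℝ × ℝ) := {p | 0 < p.1 ∧ 0 < p.2.1 ∧ 0 < p.2.2}

variable {p : ℝ × ℝ × ℝ}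

lemma sol_pos (hp : p ∈ Oct) : ∀ n, 0 < sol p n := by
  intro n
  induction n using Nat.strong_induction_on with
  | _ n ih =>
    match n with
    | 0 => exact hp.1
    | 1 => exact hp.2.1
    | 2 => exact hp.2.2
    | n + 3 =>
      have h0 := ih n (by omega)
      have h1 := ih (n + 1) (by omega)
      have h2 := ih (n + 2) (by omega)
      rw [sol]; positivity

lemma sol_isSol (hp : p ∈ Oct) : IsSol (sol p) := ⟨sol_pos hp, fun n => by rw [sol]⟩

lemma isSol_ext {x z : ℕ → ℝ} (hx : IsSol x) (hz : IsSol z) (h0 : x 0 = z 0) (h1 : x 1 = z 1)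
    (h2 : x 2 = z 2) : ∀ n, x n = z n := by
  intro n
  induction n using Nat.strong_induction_on with
  | _ n ih =>
    match n with
    | 0 => exact h0
    | 1 => exact h1
    | 2 => exact h2
    | n + 3 =>
      rw [hx.2, hz.2, ih n (by omega), ih (n + 1) (by omega), ih (n + 2) (by omega)]

lemma continuousOn_sol (n : ℕ) : ContinuousOn (fun p => sol p n) Oct := by
  induction n using Nat.strong_induction_on with
  | _ n ih =>
    match n with
    | 0 => exact continuous_fst.continuousOn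
    | 1 => exact (continuous_fst.comp continuous_snd).continuousOn
    | 2 => exact (continuous_snd.comp continuous_snd).continuousOn
    | n + 3 =>
      have h0 := ih n (by omega)
      have h1 := ih (n + 1) (by omega)
      have h2 := ih (n + 2) (by omega)
      have : (fun p => sol p (n + 3)) =
          fun p => 2 * sol p n / (1 + sol p (n + 2) + sol p (n + 1)) := by
        funext p; rw [sol]
      rw [this]
      refine (continuousOn_const.mul h0).div ((continuousOn_const.add h2).add h1) ?_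
      intro p hp
      have := sol_pos hp (n + 1)
      have := sol_pos hp (n + 2)
      positivity

lemma continuousOn_V (n : ℕ) : ContinuousOn (fun p => V (sol p) n) Oct := by
  have h0 := continuousOn_sol n
  have h1 := continuousOn_sol (n + 1)
  have h2 := continuousOn_sol (n + 2)
  exact ((((h0.add h1).add h2).sub (h0.mul h1)).sub (h1.mul h2)).sub (h0.mul h2)

lemma isOpen_Oct : IsOpen Oct := by
  refine (isOpen_lt continuous_const continuous_fst).inter
    ((isOpen_lt continuous_const (continuous_fst.comp continuous_snd)).inter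
      (isOpen_lt continuous_const (continuous_snd.comp continuous_snd)))

/-- the set `𝓑` of the problem -/
def BSet : Set (ℝ × ℝ × ℝ) := {p | p ∈ Oct ∧ ∃ M, ∀ n, sol p n ≤ M}

/-- triples whose solution escapes along the residue class of `i` -/
def RSet (i : ℕ) : Set (ℝ × ℝ × ℝ) := {p | p ∈ Oct ∧ Escape (sol p) i}

lemma RSet_eq (i : ℕ) : RSet i =
    {p | p ∈ Oct ∧ ∃ k, 1 < V (sol p) (3 * k + i) ∧ 1 < sol p (3 * k + i)} := by
  ext p
  constructor
  · rintro ⟨hp, h⟩; exact ⟨hp, (escape_iff (sol_isSol hp) i).1 h⟩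
  · rintro ⟨hp, h⟩; exact ⟨hp, (escape_iff (sol_isSol hp) i).2 h⟩

lemma isOpen_RSet (i : ℕ) : IsOpen (RSet i) := by
  have : RSet i = ⋃ k, ((Oct ∩ (fun p => V (sol p) (3 * k + i)) ⁻¹' Ioi 1) ∩
      (Oct ∩ (fun p => sol p (3 * k + i)) ⁻¹' Ioi 1)) := by
    rw [RSet_eq]
    ext p
    simp only [mem_ofPred_eq, mem_iUnion, mem_inter_iff, mem_preimage, mem_Ioi]
    constructor
    · rintro ⟨hp, k, h1, h2⟩; exact ⟨k, ⟨hp, h1⟩, hp, h2⟩
    · rintro ⟨k, ⟨hp, h1⟩, _, h2⟩; exact ⟨hp, k, h1, h2⟩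
  rw [this]
  refine isOpen_iUnion fun k => IsOpen.inter ?_ ?_
  · exact (continuousOn_V _).isOpen_inter_preimage isOpen_Oct isOpen_Ioi
  · exact (continuousOn_sol _).isOpen_inter_preimage isOpen_Oct isOpen_Ioi

lemma RSet_disjoint {i j : ℕ} (hi : i < 3) (hj : j < 3) (hij : i ≠ j) :
    Disjoint (RSet i) (RSet j) := by
  rw [Set.disjoint_left]
  rintro p ⟨_, h1⟩ ⟨_, h2⟩
  exact hij (escape_unique hi hj h1 h2)

lemma BSet_eq : BSet = {p | p ∈ Oct ∧ ∀ n, V (sol p) n ≤ 1} := by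
  ext p
  constructor
  · rintro ⟨hp, h⟩; exact ⟨hp, (bounded_iff (sol_isSol hp)).1 h⟩
  · rintro ⟨hp, h⟩; exact ⟨hp, (bounded_iff (sol_isSol hp)).2 h⟩

lemma BSet_compl : BSet = Oct \ ⋃ i ∈ Finset.range 3, RSet i := by
  ext p
  simp only [Set.mem_sdiff, mem_iUnion, Finset.mem_range, exists_prop, not_exists, not_and]
  constructor
  · rintro ⟨hp, h⟩
    refine ⟨hp, fun i hi hR => ?_⟩
    exact escape_unbounded hR.2 h
  · rintro ⟨hp, h⟩
    refine ⟨hp, ?_⟩
    rw [bounded_iff (sol_isSol hp)]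
    by_contra hcon
    push Not at hcon
    obtain ⟨i, hi, he⟩ := (exists_escape_iff (sol_isSol hp)).2 hcon
    exact h i hi ⟨hp, he⟩

/-! ### the inverse map -/

/-- inverse of the shift map on triples -/
noncomputable def G (p : ℝ × ℝ × ℝ) : ℝ × ℝ × ℝ := (p.2.2 * (1 + p.1 + p.2.1) / 2, p.1, p.2.1)

lemma continuous_G : Continuous G := by
  unfold G; fun_prop

lemma G_mem (hp : p ∈ Oct) : G p ∈ Oct := by
  obtain ⟨h0, h1, h2⟩ := hp
  exact ⟨by simp only [G]; positivity, h0, h1⟩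

lemma sol_G (hp : p ∈ Oct) (n : ℕ) : sol (G p) (n + 1) = sol p n := by
  have h1 := sol_isSol (G_mem hp)
  have h2 := sol_isSol hp
  have h3 : IsSol (fun n => sol (G p) (n + 1)) := by
    refine ⟨fun n => h1.1 _, fun n => ?_⟩
    have := h1.2 (n + 1)
    exact this
  refine isSol_ext h3 h2 rfl rfl ?_ n
  show sol (G p) 3 = p.2.2
  obtain ⟨a0, a1, a2⟩ := hp
  rw [show (3 : ℕ) = 0 + 3 by rfl, sol]
  show 2 * (G p).1 / (1 + (G p).2.2 + (G p).2.1) = p.2.2
  simp only [G]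
  field_simp
  ring

lemma iter_G_mem (m : ℕ) : ∀ {p : ℝ × ℝ × ℝ}, p ∈ Oct → G^[m] p ∈ Oct := by
  induction m with
  | zero => intro p hp; exact hp
  | succ m ih => intro p hp; rw [Function.iterate_succ_apply]; exact ih (G_mem hp)

lemma sol_iter_G (m : ℕ) : ∀ {p : ℝ × ℝ × ℝ}, p ∈ Oct → ∀ n, sol (G^[m] p) (n + m) = sol p n := by
  induction m with
  | zero => intro p _ n; rfl
  | succ m ih =>
    intro p hp n
    rw [Function.iterate_succ_apply, show n + (m + 1) = (n + 1) + m by ring, ih (G_mem hp),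
      sol_G hp]

/-- window of the solution -/
noncomputable def S (p : ℝ × ℝ × ℝ) (n : ℕ) : ℝ × ℝ × ℝ := (sol p n, sol p (n + 1), sol p (n + 2))

lemma S_mem (hp : p ∈ Oct) (n : ℕ) : S p n ∈ Oct := ⟨sol_pos hp _, sol_pos hp _, sol_pos hp _⟩

lemma iter_G_S (hp : p ∈ Oct) (m : ℕ) : G^[m] (S p m) = p := by
  induction m with
  | zero => rfl
  | succ m ih =>
    rw [Function.iterate_succ_apply]
    have : G (S p (m + 1)) = S p m := by
      have := rec_mul (sol_isSol hp) m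
      simp only [G, S]
      refine Prod.ext ?_ rfl
      show sol p (m + 1 + 2) * (1 + sol p (m + 1) + sol p (m + 1 + 1)) / 2 = sol p m
      rw [show m + 1 + 2 = m + 3 by ring, show m + 1 + 1 = m + 2 by ring]
      linarith
    rw [this, ih]

lemma continuousOn_S (n : ℕ) : ContinuousOn (fun p => S p n) Oct :=
  (continuousOn_sol n).prodMk ((continuousOn_sol (n + 1)).prodMk (continuousOn_sol (n + 2)))

/-! ### empty interior -/

/-- targets -/
noncomputable def tau : Option ℕ → ℝ × ℝ × ℝ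
  | none => (1 / 2, 1 / 2, 1 / 2)
  | some _ => (0, 1, 1)

def rho : Option ℕ → ℕ
  | none => 0
  | some i => i

def ASet (o : Option ℕ) (m : ℕ) : Set (ℝ × ℝ × ℝ) :=
  {p | p ∈ Oct ∧ ∀ k, m ≤ k → dist (S p (3 * k + rho o)) (tau o) ≤ 1 / 20000}

lemma BSet_sub : BSet ⊆ ⋃ j : Option ℕ × ℕ, ASet j.1 j.2 := by
  rintro p ⟨hp, M, hM⟩
  have h := sol_isSol hp
  have aux : ∀ o : Option ℕ, Tendsto (fun k => S p (3 * k + rho o)) atTop (𝓝 (tau o)) →
      p ∈ ⋃ j : Option ℕ × ℕ, ASet j.1 j.2 := by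
    intro o ho
    obtain ⟨m, hm⟩ := Metric.tendsto_atTop.1 ho (1 / 20000) (by norm_num)
    refine mem_iUnion.2 ⟨(o, m), hp, fun k hk => (hm k hk).le⟩
  rcases bounded_cases h hM with ⟨h1, _⟩ | ⟨⟨i, _, h1⟩, _⟩
  · refine aux none ?_
    have t : ∀ r, Tendsto (fun k => sol p (3 * k + r)) atTop (𝓝 (1 / 2)) := fun r =>
      h1.comp (tendsto_atTop_mono (fun k => by simp only [id]; omega) tendsto_id)
    exact (t 0).prodMk_nhds ((t 1).prodMk_nhds (t 2))
  · refine aux (some i) ?_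
    exact h1.1.prodMk_nhds (h1.2.1.prodMk_nhds h1.2.2)

lemma ASet_closed {K : Set (ℝ × ℝ × ℝ)} (hK : IsClosed K) (hKO : K ⊆ Oct) (o : Option ℕ) (m : ℕ) :
    IsClosed (ASet o m ∩ K) := by
  have : ASet o m ∩ K = K ∩ ⋂ k ∈ {k : ℕ | m ≤ k},
      (K ∩ (fun p => dist (S p (3 * k + rho o)) (tau o)) ⁻¹' Iic (1 / 20000)) := by
    ext p
    simp only [ASet, mem_inter_iff, mem_ofPred_eq, mem_iInter, mem_preimage, mem_Iic]
    constructor
    · rintro ⟨⟨h1, h2⟩, h3⟩; exact ⟨h3, fun k hk => ⟨h3, h2 k hk⟩⟩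
    · rintro ⟨h1, h2⟩; exact ⟨⟨hKO h1, fun k hk => (h2 k hk).2⟩, h1⟩
  rw [this]
  refine hK.inter (isClosed_biInter fun k _ => ?_)
  refine ContinuousOn.preimage_isClosed_of_isClosed ?_ hK isClosed_Iic
  exact (continuous_id.dist continuous_const).comp_continuousOn ((continuousOn_S _).mono hKO)

/-- no nonempty open set lies in an `ASet` -/
lemma ASet_no_open {O : Set (ℝ × ℝ × ℝ)} (hO : IsOpen O) {q : ℝ × ℝ × ℝ} (hq : q ∈ O)
    (o : Option ℕ) (m : ℕ) (hsub : O ⊆ ASet o m) : False := by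
  have hqO : q ∈ Oct := (hsub hq).1
  set n0 := 3 * m + rho o with hn0
  set r0 := S q n0 with hr0
  have hr0O : r0 ∈ Oct := S_mem hqO n0
  -- perturbations
  have pert : ∀ e : ℝ × ℝ × ℝ, ∃ t : ℝ, 0 < t ∧ r0 + t • e ∈ Oct ∧ G^[n0] (r0 + t • e) ∈ O := by
    intro e
    have hc : Tendsto (fun t : ℝ => r0 + t • e) (𝓝 0) (𝓝 r0) := by
      have : Continuous (fun t : ℝ => r0 + t • e) := by fun_prop
      have := this.tendsto 0
      simpa using this
    have hG : Tendsto (fun t : ℝ => G^[n0] (r0 + t • e)) (𝓝 0) (𝓝 q) := by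
      have h1 := ((continuous_G.iterate n0).tendsto r0).comp hc
      rwa [hr0, iter_G_S hqO] at h1
    have e1 := hc.eventually (isOpen_Oct.mem_nhds hr0O)
    have e2 := hG.eventually (hO.mem_nhds hq)
    have e3 : ∀ᶠ t in 𝓝[>] (0 : ℝ), (r0 + t • e ∈ Oct ∧ G^[n0] (r0 + t • e) ∈ O) ∧ 0 < t :=
      ((e1.and e2).filter_mono nhdsWithin_le_nhds).and self_mem_nhdsWithin
    obtain ⟨t, ⟨h1, h2⟩, h3⟩ := e3.exists
    exact ⟨t, h3, h1, h2⟩
  have hx := sol_isSol hr0O
  have close : ∀ r ∈ Oct, G^[n0] r ∈ O → ∀ k, dist (S r (3 * k)) (tau o) ≤ 1 / 20000 := by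
    intro r hr hrO k
    have h1 := (hsub hrO).2 (k + m) (by omega)
    have h2 : S (G^[n0] r) (3 * (k + m) + rho o) = S r (3 * k) := by
      simp only [S]
      rw [show 3 * (k + m) + rho o = 3 * k + n0 by rw [hn0]; ring,
        show 3 * k + n0 + 1 = (3 * k + 1) + n0 by ring,
        show 3 * k + n0 + 2 = (3 * k + 2) + n0 by ring,
        sol_iter_G n0 hr, sol_iter_G n0 hr, sol_iter_G n0 hr]
    rwa [h2] at h1
  have hcx := close r0 hr0O (by rw [hr0, iter_G_S hqO]; exact hq)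
  have split : ∀ r : ℝ × ℝ × ℝ, (∀ k, dist (S r (3 * k)) (tau o) ≤ 1 / 20000) → ∀ k,
      |sol r (3 * k) - (tau o).1| ≤ 1 / 20000 ∧ |sol r (3 * k + 1) - (tau o).2.1| ≤ 1 / 20000 ∧
      |sol r (3 * k + 2) - (tau o).2.2| ≤ 1 / 20000 := by
    intro r hr k
    have := hr k
    rw [Prod.dist_eq, max_le_iff, Prod.dist_eq, max_le_iff, Real.dist_eq, Real.dist_eq,
      Real.dist_eq] at this
    exact ⟨this.1, this.2.1, this.2.2⟩
  cases o with
  | none =>
    obtain ⟨t, ht, h1, h2⟩ := pert (1, -1, 0)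
    have hz := sol_isSol h1
    have sx := split r0 hcx
    have sz := split _ (close _ h1 h2)
    have toall : ∀ x : ℕ → ℝ, (∀ k, |x (3 * k) - 1 / 2| ≤ 1 / 20000 ∧
        |x (3 * k + 1) - 1 / 2| ≤ 1 / 20000 ∧ |x (3 * k + 2) - 1 / 2| ≤ 1 / 20000) →
        ∀ n, |x n - 1 / 2| ≤ 1 / 20000 := by
      intro x hx n
      have hcase : n = 3 * (n / 3) ∨ n = 3 * (n / 3) + 1 ∨ n = 3 * (n / 3) + 2 := by omega
      rcases hcase with e | e | e
      · rw [e]; exact (hx _).1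
      · rw [e]; exact (hx _).2.1
      · rw [e]; exact (hx _).2.2
    refine no_pair_half hx hz (toall _ sx) (toall _ sz) ht ?_ ?_ ?_
    · show (r0 + t • ((1 : ℝ), (-1 : ℝ), (0 : ℝ))).1 = r0.1 + t
      simp
    · show (r0 + t • ((1 : ℝ), (-1 : ℝ), (0 : ℝ))).2.1 = r0.2.1 - t
      simp [sub_eq_add_neg]
    · show (r0 + t • ((1 : ℝ), (-1 : ℝ), (0 : ℝ))).2.2 = r0.2.2
      simp
  | some i =>
    obtain ⟨t, ht, h1, h2⟩ := pert (0, 1, -1)
    have hz := sol_isSol h1
    have sx := split r0 hcx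
    have sz := split _ (close _ h1 h2)
    have w : (1 : ℝ) / 20000 ≤ 1 / 1000 := by norm_num
    refine no_pair_cycle hx hz (fun k => ?_) (fun k => (sx k).2.1.trans w)
      (fun k => (sx k).2.2.trans w) (fun k => ?_) (fun k => (sz k).2.1.trans w)
      (fun k => (sz k).2.2.trans w) ht ?_ ?_ ?_
    · have := (sx k).1.trans w
      simpa [tau] using this
    · have := (sz k).1.trans w
      simpa [tau] using this
    · show (r0 + t • ((0 : ℝ), (1 : ℝ), (-1 : ℝ))).1 = r0.1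
      simp
    · show (r0 + t • ((0 : ℝ), (1 : ℝ), (-1 : ℝ))).2.1 = r0.2.1 + t
      simp
    · show (r0 + t • ((0 : ℝ), (1 : ℝ), (-1 : ℝ))).2.2 = r0.2.2 - t
      simp [sub_eq_add_neg]

theorem interior_BSet : interior BSet = ∅ := by
  by_contra hne
  obtain ⟨q, hq⟩ := nonempty_iff_ne_empty.2 hne
  obtain ⟨r, hr, hball⟩ := Metric.isOpen_iff.1 isOpen_interior q hq
  have hK : Metric.closedBall q (r / 2) ⊆ BSet := by
    intro p hp
    refine interior_subset (hball ?_)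
    rw [Metric.mem_closedBall] at hp
    rw [Metric.mem_ball]; linarith
  have hKO : Metric.closedBall q (r / 2) ⊆ Oct := fun p hp => (hK hp).1
  set K := Metric.closedBall q (r / 2) with hKdef
  let f : Option ℕ × ℕ → Set (ℝ × ℝ × ℝ) := fun j => (ASet j.1 j.2 ∩ K) ∪ (Metric.ball q (r / 2))ᶜ
  have hcl : ∀ j, IsClosed (f j) := fun j =>
    (ASet_closed Metric.isClosed_closedBall hKO j.1 j.2).union Metric.isOpen_ball.isClosed_compl
  have hun : ⋃ j, f j = univ := by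
    rw [eq_univ_iff_forall]
    intro p
    by_cases hp : p ∈ Metric.ball q (r / 2)
    · have hpK : p ∈ K := Metric.ball_subset_closedBall hp
      obtain ⟨j, hj⟩ := mem_iUnion.1 (BSet_sub (hK hpK))
      exact mem_iUnion.2 ⟨j, Or.inl ⟨hj, hpK⟩⟩
    · exact mem_iUnion.2 ⟨(none, 0), Or.inr hp⟩
  have hdense := dense_iUnion_interior_of_closed hcl hun
  obtain ⟨p, hp1, hp2⟩ := hdense.exists_mem_open Metric.isOpen_ball
    (⟨q, Metric.mem_ball_self (by linarith)⟩ : (Metric.ball q (r / 2)).Nonempty)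
  obtain ⟨j, hj⟩ := mem_iUnion.1 hp1
  refine ASet_no_open (isOpen_interior.inter Metric.isOpen_ball) (q := p) ⟨hj, hp2⟩ j.1 j.2 ?_
  rintro z ⟨hz1, hz2⟩
  rcases interior_subset hz1 with h | h
  · exact h.1
  · exact absurd hz2 h

/-! ### examples -/

/-- shifting a solution converging to the cycle -/
lemma cycle_pred {x : ℕ → ℝ} {i : ℕ} (h : ConvCycle x (i + 1)) :
    ConvCycle (fun n => x (n + 1)) i := by
  refine ⟨h.1.congr fun k => ?_, h.2.1.congr fun k => ?_, h.2.2.congr fun k => ?_⟩ <;>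
  · congr 1

lemma cycle_wrap {x : ℕ → ℝ} (h : ConvCycle x 0) : ConvCycle x 3 := by
  refine ⟨?_, ?_, ?_⟩
  · refine ((tendsto_add_atTop_iff_nat 1).2 h.1).congr fun k => ?_
    congr 1
  · refine ((tendsto_add_atTop_iff_nat 1).2 h.2.1).congr fun k => ?_
    congr 1
  · refine ((tendsto_add_atTop_iff_nat 1).2 h.2.2).congr fun k => ?_
    congr 1

lemma sol_shift (hp : p ∈ Oct) (n : ℕ) : sol (S p 1) n = sol p (n + 1) := by
  have h := sol_isSol hp
  have h3 : IsSol (fun n => sol p (n + 1)) := ⟨fun n => h.1 _, fun n => h.2 (n + 1)⟩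
  exact isSol_ext (sol_isSol (S_mem hp 1)) h3 rfl rfl rfl n

/-- some positive solution converges to the three-cycle -/
lemma exists_cycle_some : ∃ p ∈ Oct, ∃ i < 3, ConvCycle (sol p) i := by
  let γ : ℝ → ℝ × ℝ × ℝ := fun t => (2 - t, t, 1 / 10)
  have hγ : Continuous γ := by fun_prop
  have hO : ∀ t ∈ Icc (1 / 10 : ℝ) (19 / 10), γ t ∈ Oct := by
    rintro t ⟨h1, h2⟩
    refine ⟨?_, ?_, ?_⟩
    · show 0 < 2 - t; linarith
    · show 0 < t; linarith
    · show (0 : ℝ) < 1 / 10; norm_num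
  have hV0 : ∀ t, V (sol (γ t)) 0 = 19 / 10 - t * (2 - t) := by
    intro t
    simp only [V, sol, γ]
    ring
  have hnc : ¬ (Icc (1 / 10 : ℝ) (19 / 10) ⊆ γ ⁻¹' RSet 0 ∪ γ ⁻¹' (RSet 1 ∪ RSet 2)) := by
    intro hsub
    have hconn : IsPreconnected (Icc (1 / 10 : ℝ) (19 / 10)) := isPreconnected_Icc
    have hne := hconn (γ ⁻¹' RSet 0) (γ ⁻¹' (RSet 1 ∪ RSet 2))
      ((isOpen_RSet 0).preimage hγ) (((isOpen_RSet 1).union (isOpen_RSet 2)).preimage hγ) hsub
      ⟨1 / 10, ⟨le_rfl, by norm_num⟩, ?_⟩ ⟨19 / 10, ⟨by norm_num, le_rfl⟩, ?_⟩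
    · obtain ⟨t, _, h0, h12⟩ := hne
      rcases h12 with h | h
      · exact (Set.disjoint_left.1 (RSet_disjoint (by norm_num) (by norm_num) (by norm_num)) h0) h
      · exact (Set.disjoint_left.1 (RSet_disjoint (by norm_num) (by norm_num) (by norm_num)) h0) h
    · show γ (1 / 10) ∈ RSet 0
      rw [RSet_eq]
      refine ⟨hO _ ⟨le_rfl, by norm_num⟩, 0, ?_, ?_⟩
      · rw [show 3 * 0 + 0 = 0 by rfl, hV0]; norm_num
      · show 1 < 2 - (1 / 10 : ℝ); norm_num
    · show γ (19 / 10) ∈ RSet 1 ∪ RSet 2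
      left
      rw [RSet_eq]
      have hm := hO (19 / 10) ⟨by norm_num, le_rfl⟩
      refine ⟨hm, 0, ?_, ?_⟩
      · have h1 := V_le_succ (sol_isSol hm) 0
        rw [hV0] at h1
        rw [show 3 * 0 + 1 = 0 + 1 by rfl]
        refine lt_of_lt_of_le ?_ h1
        norm_num
      · show 1 < (19 / 10 : ℝ); norm_num
  rw [Set.not_subset] at hnc
  obtain ⟨t, ht, hnt⟩ := hnc
  have hm := hO t ht
  refine ⟨γ t, hm, ?_⟩
  rw [convCycle_iff (sol_isSol hm)]
  constructor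
  · intro n
    by_contra hcon
    push Not at hcon
    obtain ⟨i, hi, he⟩ := (exists_escape_iff (sol_isSol hm)).2 ⟨n, hcon⟩
    apply hnt
    interval_cases i
    · exact Or.inl ⟨hm, he⟩
    · exact Or.inr (Or.inl ⟨hm, he⟩)
    · exact Or.inr (Or.inr ⟨hm, he⟩)
  · refine ⟨0, ?_⟩
    rw [hV0]
    nlinarith [sq_nonneg (t - 1)]

lemma exists_cycle {i : ℕ} (hi : i < 3) : ∃ p ∈ Oct, ConvCycle (sol p) i := by
  obtain ⟨p, hp, j, hj, hc⟩ := exists_cycle_some
  have step : ∀ j, (∃ p ∈ Oct, ConvCycle (sol p) (j + 1)) → ∃ p ∈ Oct, ConvCycle (sol p) j := by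
    rintro j ⟨p, hp, hc⟩
    refine ⟨S p 1, S_mem hp 1, ?_⟩
    have := cycle_pred hc
    have e : sol (S p 1) = fun n => sol p (n + 1) := funext (sol_shift hp)
    rw [e]; exact this
  have wrap : (∃ p ∈ Oct, ConvCycle (sol p) 0) → ∃ p ∈ Oct, ConvCycle (sol p) 2 := by
    rintro ⟨p, hp, hc⟩
    exact step 2 ⟨p, hp, cycle_wrap hc⟩
  have h2 : ∃ p ∈ Oct, ConvCycle (sol p) 2 := by
    interval_cases j
    · exact wrap ⟨p, hp, hc⟩
    · exact wrap (step 0 ⟨p, hp, hc⟩)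
    · exact ⟨p, hp, hc⟩
  interval_cases i
  · exact step 0 (step 1 h2)
  · exact step 1 h2
  · exact h2

end Pool.Agent.H959.B43024
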